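import Mathlib
import Pool.Agent.Y920.EP.Base

set_option autoImplicit false

/-! Fields with small norm groups, `p = 2`: comparability up to few exceptional classes. -/

namespace Pool.Agent.E8helper26.ETC

open Pool.Agent.Y920.EP

/-- a homomorphism `φ` from the units of a field to a group `A` with kernel the squares, and
subgroups `N(a)` of `A` with at most `N` elements for `a ≠ 1` -/
structure Sys2 {F : Type} [Field F] {A : Type} [CommGroup A] (φ : Fˣ →* A) (Nn : A → Subgroup A)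
    (N : ℕ) : Prop where
  ker : ∀ u : Fˣ, φ u = 1 ↔ ∃ c : Fˣ, u = c ^ 2
  symm : ∀ a b : A, b ∈ Nn a → a ∈ Nn b
  sum : ∀ u v : Fˣ, (v : F) = 1 + u → φ v ∈ Nn (φ (-u))
  fin : ∀ a : A, a ≠ 1 → (Nn a : Set A).Finite ∧ (Nn a : Set A).ncard ≤ N

/-- the sum `x + y` of elements with `φ(x) ≠ φ(-y)` is not smaller than `x` -/
def HL2 {F : Type} [Field F] {A : Type} [CommGroup A] (φ : Fˣ →* A) (M : ℕ) : Prop :=
  ∀ x y z : Fˣ, (z : F) = x + y → φ x ≠ φ (-y) → Le φ M x z

section

variable {F : Type} [Field F] {A : Type} [CommGroup A] {φ : Fˣ →* A}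

lemma map_neg' (u : Fˣ) : φ (-u) = φ (-1) * φ u := by
  rw [← map_mul, neg_one_mul]

lemma neg_neg_one : φ (-1) * φ (-1) = 1 := by
  rw [← map_mul, neg_mul_neg, one_mul, map_one]

lemma ne_of_phi {x y : Fˣ} (h : φ x ≠ φ (-y)) : (x : F) + y ≠ 0 := by
  intro e
  apply h
  have : x = -y := Units.ext (by rw [Units.val_neg]; linear_combination e)
  rw [this]

theorem hl2 {Nn : A → Subgroup A} {N : ℕ} (h : Sys2 φ Nn N) : HL2 φ (N ^ 2) := by
  classical
  intro x y z hz hxy
  have hc0 : φ (-(y / x)) ≠ 1 := by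
    intro e
    apply hxy
    have e1 : -y = -(y / x) * x := by rw [neg_mul, div_mul_cancel]
    rw [e1, map_mul, e, one_mul]
  set c0 := φ (-(y / x)) with hc0d
  obtain ⟨hf0, hn0⟩ := h.fin c0 hc0
  have hf : ∀ m : A, ∃ S : Finset A, (m ≠ 1 → ∀ b, b ∈ Nn m → b ∈ S) ∧ S.card ≤ N := by
    intro m
    by_cases hm : m = 1
    · exact ⟨∅, fun h' => absurd hm h', by simp⟩
    · obtain ⟨h1, h2⟩ := h.fin m hm
      refine ⟨h1.toFinset, fun _ b hb => by simpa using hb, ?_⟩
      rw [← Set.ncard_eq_toFinset_card _ h1]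
      exact h2
  choose S hS1 hS2 using hf
  let B : Finset A := insert (φ (-z)) ((hf0.toFinset.erase 1).biUnion fun m =>
    (S m).image fun b => φ (-z) * b)
  have h1mem : (1 : A) ∈ hf0.toFinset := by
    rw [Set.Finite.mem_toFinset]
    exact one_mem _
  have hB : B.card ≤ N ^ 2 := by
    have h1 : ((hf0.toFinset.erase 1).biUnion fun m => (S m).image fun b => φ (-z) * b).card ≤
        (hf0.toFinset.erase 1).card * N := by
      refine Finset.card_biUnion_le.trans ?_
      rw [← smul_eq_mul]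
      exact Finset.sum_le_card_nsmul _ _ _ fun m _ => Finset.card_image_le.trans (hS2 m)
    have h2 : hf0.toFinset.card ≤ N := by
      rw [← Set.ncard_eq_toFinset_card _ hf0]
      exact hn0
    have h3 : (hf0.toFinset.erase 1).card = hf0.toFinset.card - 1 := Finset.card_erase_of_mem h1mem
    have h4 : 0 < hf0.toFinset.card := Finset.card_pos.2 ⟨_, h1mem⟩
    obtain ⟨n, hn⟩ : ∃ n, N = n + 1 := ⟨N - 1, by omega⟩
    have h5 : (hf0.toFinset.erase 1).card ≤ n := by omega
    have h6 : (hf0.toFinset.erase 1).card * N ≤ n * N := Nat.mul_le_mul_right _ h5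
    have h7 : N ^ 2 = n * N + N := by rw [hn]; ring
    refine (Finset.card_insert_le _ _).trans ?_
    omega
  refine ⟨B, hB, ?_⟩
  rintro w hw ⟨x', hx', hφx'⟩
  have ht0 : (z : F) + w ≠ 0 := by
    intro e
    apply hw
    have : w = -z := Units.ext (by rw [Units.val_neg]; linear_combination e)
    rw [this]
    exact Finset.mem_insert_self _ _
  refine ⟨Units.mk0 _ ht0, Units.val_mk0 _, ?_⟩
  set t := Units.mk0 _ ht0 with ht
  have htv : (t : F) = z + w := Units.val_mk0 _
  have h1 : φ (z / x) ∈ Nn c0 := by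
    refine h.sum (y / x) (z / x) ?_
    rw [Units.val_div_eq_div_val, Units.val_div_eq_div_val, hz]
    field_simp
  have h2 : φ (t / x') ∈ Nn c0 := by
    have e : φ (-(y / x')) = c0 := by
      rw [hc0d, map_neg' (y / x'), map_neg' (y / x), map_div, map_div, hφx']
    rw [← e]
    refine h.sum (y / x') (t / x') ?_
    rw [Units.val_div_eq_div_val, Units.val_div_eq_div_val, htv, hz]
    field_simp
    rw [hx']
    ring
  have h3 : φ (t / z) ∈ Nn c0 := by
    have e : t / z = (t / x') / (z / x) * (x' / x) := by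
      ext
      simp only [Units.val_div_eq_div_val, Units.val_mul]
      have h5 : (z : F) ≠ 0 := z.ne_zero
      have h6 : (x : F) ≠ 0 := x.ne_zero
      have h7 : (x' : F) ≠ 0 := x'.ne_zero
      field_simp
    rw [e, map_mul, map_div φ x' x, hφx', div_self', mul_one, map_div φ (t / x')]
    exact div_mem h2 h1
  have h4 : φ (-(w / z)) ∈ Nn (φ (t / z)) := by
    apply h.symm
    refine h.sum (w / z) (t / z) ?_
    rw [Units.val_div_eq_div_val, Units.val_div_eq_div_val, htv]
    field_simp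
  by_contra hne
  have hm1 : φ (t / z) ≠ 1 := by
    rw [map_div]
    exact fun e => hne (div_eq_one.1 e)
  apply hw
  refine Finset.mem_insert_of_mem (Finset.mem_biUnion.2 ⟨φ (t / z), ?_, ?_⟩)
  · rw [Finset.mem_erase, Set.Finite.mem_toFinset]
    exact ⟨hm1, h3⟩
  · rw [Finset.mem_image]
    refine ⟨φ (-(w / z)), hS1 _ hm1 _ h4, ?_⟩
    rw [← map_mul, neg_mul_neg, mul_div_cancel]

lemma le1_mul {k l : ℕ} {y z : Fˣ} (hy : Le φ k 1 y) (hz : Le φ l 1 z) :
    Le φ (k + l) 1 (y * z) := by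
  have h := le_mul y hz
  rw [mul_one] at h
  exact le_tr hy h

lemma le1_inv {k : ℕ} {y : Fˣ} (hy : Le φ k y 1) : Le φ k 1 y⁻¹ := by
  have h := le_mul y⁻¹ hy
  rwa [inv_mul_cancel, mul_one] at h

/-- few classes contain elements `w ≪ 1` which are not smaller than `1` -/
theorem su2 {k : ℕ} (G : Finset A) (hG : ∀ g ∈ G, ∃ w : Fˣ, φ w = g ∧ Le φ k 1 w ∧ Ml φ w 1) :
    G.card ≤ 2 * k + 1 := by
  classical
  choose! w hw1 hw2 hw3 using hG
  have hB : ∀ g ∈ G, ∃ B : Finset A, B.card ≤ k ∧ ∀ u : Fˣ, φ u ∉ B → Ml φ u 1 → Ml φ u (w g) :=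
    fun g hg => hw2 g hg
  choose! B hB1 hB2 using hB
  have claim : ∀ g ∈ G, ∀ h ∈ G, g ≠ h → h ∈ B g ∨ g ∈ B h := by
    intro g hg h hh hgh
    by_contra hc
    rw [not_or] at hc
    have h1 := hB2 g hg (w h) (by rw [hw1 h hh]; exact hc.1) (hw3 h hh)
    have h2 := hB2 h hh (w g) (by rw [hw1 g hg]; exact hc.2) (hw3 g hg)
    obtain ⟨z1, hz1, e1⟩ := h1
    obtain ⟨z2, hz2, e2⟩ := h2
    have h3 : z1 = z2 := Units.ext (by rw [hz1, hz2, add_comm])
    rw [hw1 g hg] at e1
    rw [hw1 h hh] at e2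
    rw [h3] at e1
    exact hgh (e1.symm.trans e2)
  let P : Finset (A × A) := G.biUnion fun g => (B g).image fun h => (g, h)
  let P' : Finset (A × A) := G.biUnion fun g => (B g).image fun h => (h, g)
  have hP : P.card ≤ G.card * k := by
    refine Finset.card_biUnion_le.trans ?_
    rw [← smul_eq_mul]
    exact Finset.sum_le_card_nsmul _ _ _ fun g hg => Finset.card_image_le.trans (hB1 g hg)
  have hP' : P'.card ≤ G.card * k := by
    refine Finset.card_biUnion_le.trans ?_
    rw [← smul_eq_mul]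
    exact Finset.sum_le_card_nsmul _ _ _ fun g hg => Finset.card_image_le.trans (hB1 g hg)
  have hsub : G.offDiag ⊆ P ∪ P' := by
    rintro ⟨g, h⟩ hgh
    rw [Finset.mem_offDiag] at hgh
    obtain ⟨hg, hh, hne⟩ := hgh
    rw [Finset.mem_union]
    rcases claim g hg h hh hne with h1 | h1
    · left
      exact Finset.mem_biUnion.2 ⟨g, hg, Finset.mem_image.2 ⟨h, h1, rfl⟩⟩
    · right
      exact Finset.mem_biUnion.2 ⟨h, hh, Finset.mem_image.2 ⟨g, h1, rfl⟩⟩
  have h1 : G.card * G.card - G.card ≤ G.card * k + G.card * k := by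
    rw [← Finset.offDiag_card]
    exact (Finset.card_le_card hsub).trans
      ((Finset.card_union_le _ _).trans (Nat.add_le_add hP hP'))
  rcases Nat.eq_zero_or_pos G.card with h0 | h0
  · omega
  by_contra hc
  push Not at hc
  have h2 : G.card * (2 * k + 2) ≤ G.card * G.card := Nat.mul_le_mul_left _ hc
  have h3 : G.card * (2 * k + 2) = G.card * k + G.card * k + 2 * G.card := by ring
  omega

/-! ### decompositions of `1` -/

/-- `r + s = 1`, `φ(r) ≠ 1, φ(-1)` and `φ(s) ≠ 1, φ(-r)` -/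
structure Dec (φ : Fˣ →* A) (r s : Fˣ) : Prop where
  sum : (r : F) + s = 1
  r1 : φ r ≠ 1
  rn : φ r ≠ φ (-1)
  s1 : φ s ≠ 1
  sr : φ s ≠ φ (-r)

variable {M : ℕ} (hL : HL2 φ M) {r s : Fˣ} (hd : Dec φ r s)

include hL hd

lemma Dec.le_r : Le φ M 1 r := by
  refine hL 1 (-s) r ?_ ?_
  · rw [Units.val_neg, Units.val_one]; linear_combination hd.sum
  · rw [map_one, neg_neg]; exact fun e => hd.s1 e.symm

lemma Dec.le_s : Le φ M 1 s := by
  refine hL 1 (-r) s ?_ ?_
  · rw [Units.val_neg, Units.val_one]; linear_combination hd.sum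
  · rw [map_one, neg_neg]; exact fun e => hd.r1 e.symm

lemma Dec.r_le : Le φ M r 1 := by
  refine hL r s 1 ?_ ?_
  · rw [Units.val_one, hd.sum]
  · intro e
    apply hd.sr
    rw [map_neg' r, e, map_neg' s, ← mul_assoc, neg_neg_one, one_mul]

lemma Dec.s_le : Le φ M s 1 := by
  refine hL s r 1 ?_ ?_
  · rw [Units.val_one, add_comm, hd.sum]
  · exact hd.sr

/-- `1 ≤ r/s²` -/
lemma Dec.le_rss : Le φ (3 * M) 1 (r / s ^ 2) := by
  have h1 := le1_inv (hd.s_le hL)
  have h2 := le1_mul (le1_mul (hd.le_r hL) h1) h1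
  have e : r * s⁻¹ * s⁻¹ = r / s ^ 2 := by
    rw [mul_assoc, ← mul_inv, ← pow_two, div_eq_mul_inv]
  rw [e] at h2
  exact le_mono (by omega) h2

end

end Pool.Agent.E8helper26.ETC
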