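import Mathlib
import Pool.Agent.E8helper26.ETC.Base

set_option autoImplicit false

/-! Fields with small norm groups, `p = 2`: the number of classes that are not rigid. -/

namespace Pool.Agent.E8helper26.ETC

open Pool.Agent.Y920.EP

section

variable {F : Type} [Field F] {A : Type} [CommGroup A] {φ : Fˣ →* A}

lemma phi_sq (hk : ∀ u : Fˣ, φ u = 1 ↔ ∃ c : Fˣ, u = c ^ 2) (c : Fˣ) : φ (c ^ 2) = 1 :=
  (hk _).2 ⟨c, rfl⟩

lemma phi_mul_self (hk : ∀ u : Fˣ, φ u = 1 ↔ ∃ c : Fˣ, u = c ^ 2) (c : Fˣ) : φ c * φ c = 1 := by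
  rw [← map_mul, ← pow_two]
  exact phi_sq hk c

lemma phi_inv (hk : ∀ u : Fˣ, φ u = 1 ↔ ∃ c : Fˣ, u = c ^ 2) (c : Fˣ) : (φ c)⁻¹ = φ c := by
  rw [inv_eq_iff_mul_eq_one]
  exact phi_mul_self hk c

variable {M : ℕ} (hk : ∀ u : Fˣ, φ u = 1 ↔ ∃ c : Fˣ, u = c ^ 2) (hL : HL2 φ M) {r s : Fˣ}
  (hd : Dec φ r s) {two : Fˣ} (h2 : (two : F) = 2)

omit hk hL in
include hd in
lemma Dec.exists_q : ∃ q : Fˣ, (q : F) = 1 + r := by
  have : (1 : F) + r ≠ 0 := by
    intro e
    apply hd.rn
    have : r = -1 := Units.ext (by rw [Units.val_neg, Units.val_one]; linear_combination e)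
    rw [this]
  exact ⟨Units.mk0 _ this, Units.val_mk0 _⟩

include hL hd h2 in
lemma two_of {q : Fˣ} (hq : (q : F) = 1 + r) (h : φ q ≠ φ s ∨ φ q ≠ φ (-s)) :
    Le φ (2 * M) 1 two := by
  rw [two_mul]
  rcases h with h | h
  · have h1 : Le φ M q (two * r) := by
      refine hL q (-s) _ ?_ ?_
      · rw [Units.val_mul, Units.val_neg, h2, hq]
        linear_combination hd.sum
      · rw [neg_neg]; exact h
    have h3 := le_mul r⁻¹ h1
    have e1 : r⁻¹ * (two * r) = two := by rw [mul_comm, mul_inv_cancel_right]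
    rw [e1] at h3
    have h4 : Le φ M 1 (r⁻¹ * q) := by
      refine hL 1 r⁻¹ _ ?_ ?_
      · rw [Units.val_mul, Units.val_one, hq, Units.val_inv_eq_inv_val]
        field_simp
        ring
      · rw [map_one]
        intro e
        apply hd.rn
        rw [map_neg', map_inv] at e
        exact (mul_inv_eq_one.1 e.symm).symm
    exact le_tr h4 h3
  · have h1 : Le φ M s two := by
      refine hL s q _ ?_ ?_
      · rw [h2, hq]
        linear_combination (-1) * hd.sum
      · intro e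
        apply h
        rw [map_neg' s, e, map_neg' q, ← mul_assoc, neg_neg_one, one_mul]
    exact le_tr (hd.le_s hL) h1

include hk hL hd h2 in
/-- `4 r / s²` is a small element of class `φ(r)` -/
lemma exists_w (hle : Le φ (2 * M) 1 two) :
    ∃ w : Fˣ, φ w = φ r ∧ Le φ (7 * M) 1 w ∧ Ml φ w 1 := by
  obtain ⟨q, hq⟩ := hd.exists_q
  refine ⟨two ^ 2 * (r / s ^ 2), ?_, ?_, ?_⟩
  · rw [map_mul, phi_sq hk, one_mul, map_div, phi_sq hk, div_one]
  · have h1 := hd.le_rss hL
    have h3 := le1_mul (le1_mul hle hle) h1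
    rw [← pow_two] at h3
    exact le_mono (by omega) h3
  · refine ⟨(q / s) ^ 2, ?_, ?_⟩
    · rw [Units.val_pow_eq_pow_val, Units.val_div_eq_div_val, Units.val_mul,
        Units.val_div_eq_div_val, Units.val_pow_eq_pow_val, Units.val_pow_eq_pow_val, h2, hq,
        Units.val_one]
      have hs0 : (s : F) ≠ 0 := s.ne_zero
      have e : (s : F) = 1 - r := by linear_combination hd.sum
      field_simp
      rw [e]
      ring
    · rw [phi_sq hk, map_one]

/-! ### the exceptional case -/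

/-- `φ(1+r) = φ(s) = φ(-s)` for all decompositions -/
def Bad (φ : Fˣ →* A) : Prop := ∀ r s : Fˣ, Dec φ r s → ∀ q : Fˣ, (q : F) = 1 + r →
  φ q = φ s ∧ φ q = φ (-s)

include hd in
lemma bad_neg (hb : Bad φ) : φ (-1) = 1 := by
  obtain ⟨q, hq⟩ := hd.exists_q
  obtain ⟨h1, h3⟩ := hb r s hd q hq
  rw [map_neg', h1] at h3
  exact (right_eq_mul.1 h3)

lemma dec_of (hε : φ (-1) = 1) {r s : Fˣ} (hs : (r : F) + s = 1) (hr1 : φ r ≠ 1) (hs1 : φ s ≠ 1)
    (hrs : φ s ≠ φ r) : Dec φ r s :=
  ⟨hs, hr1, by rw [hε]; exact hr1, hs1, by rw [map_neg', hε, one_mul]; exact hrs⟩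

include hk hd h2 in
/-- `1 - 2 r` is a square -/
lemma one_sub_two (hb : Bad φ) : Ml φ (-(two * r)) 1 := by
  have hε := bad_neg hd hb
  have h1 : Dec φ (-r / s) (1 / s) := by
    refine dec_of hε ?_ ?_ ?_ ?_
    · rw [Units.val_div_eq_div_val, Units.val_div_eq_div_val, Units.val_neg, Units.val_one,
        ← add_div, div_eq_one_iff_eq s.ne_zero]
      linear_combination (-1) * hd.sum
    · rw [map_div, map_neg', hε, one_mul]
      intro e
      apply hd.sr
      rw [map_neg', hε, one_mul]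
      exact (div_eq_one.1 e).symm
    · rw [map_div, map_one, one_div, phi_inv hk]
      exact hd.s1
    · rw [map_div, map_div, map_one, map_neg', hε, one_mul]
      intro e
      apply hd.r1
      exact (div_left_injective e).symm
  obtain ⟨q, hq⟩ := h1.exists_q
  obtain ⟨h3, -⟩ := hb _ _ h1 q hq
  refine ⟨q * s, ?_, ?_⟩
  · rw [Units.val_mul, hq, Units.val_div_eq_div_val, Units.val_neg, Units.val_neg, Units.val_mul,
      h2, Units.val_one]
    have hs0 : (s : F) ≠ 0 := s.ne_zero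
    field_simp
    linear_combination hd.sum
  · rw [map_mul, h3, ← map_mul, one_div, inv_mul_cancel]

include hk h2 in
/-- the case `1 ≤ 2` -/
lemma card_a {k : ℕ} (hb : Bad φ) (hle : Le φ k 1 two) (G : Finset A)
    (hG : ∀ g ∈ G, ∃ r s : Fˣ, Dec φ r s ∧ φ r = g) : G.card ≤ k := by
  classical
  obtain ⟨B, hB, hBp⟩ := hle
  have hsub : G.image (fun g => φ two * g) ⊆ B := by
    intro b hb'
    rw [Finset.mem_image] at hb'
    obtain ⟨g, hg, rfl⟩ := hb'
    obtain ⟨r, s, hd, rfl⟩ := hG g hg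
    have hε := bad_neg hd hb
    by_contra hcon
    have h1 := one_sub_two hk hd h2 hb
    have h3 : φ (-(two * r)) ∉ B := by
      rw [map_neg', hε, one_mul, map_mul]
      exact hcon
    obtain ⟨z, hz, e⟩ := hBp _ h3 h1
    have h4 : z = two * s := by
      ext
      rw [hz, Units.val_neg, Units.val_mul, Units.val_mul, h2]
      linear_combination (-2) * hd.sum
    rw [h4, map_mul] at e
    exact hd.s1 (mul_eq_left.1 e)
  have h1 := Finset.card_le_card hsub
  rw [Finset.card_image_of_injective _ (mul_right_injective _)] at h1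
  exact h1.trans hB

include hL hd in
lemma neg_le (hε : φ (-1) = 1) : Le φ (3 * M) 1 (-1) := by
  have h1 : Le φ M (-s) r := by
    refine hL (-s) 1 r ?_ ?_
    · rw [Units.val_neg, Units.val_one]; linear_combination hd.sum
    · rw [map_neg', hε, one_mul]; exact hd.s1
  have h3 := le_mul (-1) (le_tr h1 (hd.r_le hL))
  rw [neg_mul_neg, one_mul, mul_one] at h3
  exact le_mono (by omega) (le_tr (hd.le_s hL) h3)

include hL in
lemma comp' (hε : φ (-1) = 1) {y : Fˣ} (hy : φ y ≠ 1) : Le φ (2 * M) 1 y ∨ Le φ (2 * M) y 1 := by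
  have hny : ∀ u : Fˣ, φ (-u) = φ u := fun u => by rw [map_neg', hε, one_mul]
  have h0 : (1 : F) + y ≠ 0 := by
    have := ne_of_phi (φ := φ) (x := 1) (y := y) (by rw [map_one, hny]; exact fun e => hy e.symm)
    rwa [Units.val_one] at this
  obtain ⟨z, hz⟩ : ∃ z : Fˣ, (z : F) = 1 + y := ⟨Units.mk0 _ h0, Units.val_mk0 _⟩
  by_cases hzy : φ z = φ y
  · left
    rw [two_mul]
    refine le_tr (hL 1 y z ?_ ?_) (hL z (-1) y ?_ ?_)
    · rw [Units.val_one, hz]
    · rw [map_one, hny]; exact fun e => hy e.symm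
    · rw [Units.val_neg, Units.val_one, hz]; ring
    · rw [neg_neg, map_one, hzy]; exact hy
  · right
    rw [two_mul]
    refine le_tr (hL y 1 z ?_ ?_) (hL z (-y) 1 ?_ ?_)
    · rw [Units.val_one, hz]; ring
    · rw [hε]; exact hy
    · rw [Units.val_neg, Units.val_one, hz]; ring
    · rw [neg_neg]; exact hzy

include hL hd in
lemma comp_two (hε : φ (-1) = 1) : Le φ (3 * M) 1 two ∨ Le φ (3 * M) two 1 := by
  by_cases ht : φ two = 1
  · have hy : φ (two * r) ≠ 1 := by rw [map_mul, ht, one_mul]; exact hd.r1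
    rcases comp' hL hε hy with h | h
    · left
      have h1 := le_mul two (hd.r_le hL)
      rw [mul_one] at h1
      exact le_mono (by omega) (le_tr h h1)
    · right
      have h1 := le_mul two (hd.le_r hL)
      rw [mul_one] at h1
      exact le_mono (by omega) (le_tr h1 h)
  · rcases comp' hL hε ht with h | h
    · exact Or.inl (le_mono (by omega) h)
    · exact Or.inr (le_mono (by omega) h)

include hk hL hd h2 in
/-- no small units -/
lemma no_small (hε : φ (-1) = 1) (hnle : ¬ Le φ (14 * M) 1 two) {ρ : Fˣ} (h1 : φ ρ ≠ 1)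
    (hm : Ml φ ρ 1) (hle : Le φ (6 * M) 1 ρ) : False := by
  have hny : ∀ u : Fˣ, φ (-u) = φ u := fun u => by rw [map_neg', hε, one_mul]
  obtain ⟨z, hz, e⟩ := hm
  rw [map_one, hk] at e
  obtain ⟨c, rfl⟩ := e
  rw [Units.val_pow_eq_pow_val, Units.val_one] at hz
  have hρ : (ρ : F) = (c - 1) * (c + 1) := by linear_combination (-1) * hz
  have hcm0 : (c : F) - 1 ≠ 0 := by
    intro e
    rw [e, zero_mul] at hρ
    exact ρ.ne_zero hρ
  have hcp0 : (c : F) + 1 ≠ 0 := by
    intro e
    rw [e, mul_zero] at hρ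
    exact ρ.ne_zero hρ
  obtain ⟨cm, hcm⟩ : ∃ u : Fˣ, (u : F) = c - 1 := ⟨Units.mk0 _ hcm0, Units.val_mk0 _⟩
  obtain ⟨cp, hcp⟩ : ∃ u : Fˣ, (u : F) = c + 1 := ⟨Units.mk0 _ hcp0, Units.val_mk0 _⟩
  have hρ' : ρ = cm * cp := Units.ext (by rw [hρ, Units.val_mul, hcm, hcp])
  have hne : φ cp ≠ φ cm := by
    intro e
    apply h1
    rw [hρ', map_mul, e, phi_mul_self hk]
  have h3 : Le φ M cp two := by
    refine hL cp (-cm) two ?_ ?_
    · rw [h2, Units.val_neg, hcp, hcm]; ring
    · rw [neg_neg]; exact hne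
  have h4 : Le φ M (-cm) two := by
    refine hL (-cm) cp two ?_ ?_
    · rw [h2, Units.val_neg, hcp, hcm]; ring
    · rw [hny, hny]; exact fun e => hne e.symm
  have h5 := le_mul cm h3
  rw [← hρ'] at h5
  have h6 := le_mul (-two) h4
  rw [neg_mul_neg, neg_mul, mul_comm two cm] at h6
  have h7 := le_mul (-(two * two)) (neg_le hL hd hε)
  rw [mul_one, neg_mul_neg, mul_one] at h7
  have h8 : Le φ (11 * M) 1 (two * two) :=
    le_mono (by omega) (le_tr (le_tr (le_tr hle h5) h6) h7)
  rcases comp_two hL hd hε with h9 | h9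
  · exact hnle (le_mono (by omega) h9)
  · have h10 := le_mul two h9
    rw [mul_one] at h10
    exact hnle (le_mono (by omega) (le_tr h8 h10))

end

section

variable {F : Type} [Field F] {A : Type} [CommGroup A] {φ : Fˣ →* A} {Nn : A → Subgroup A} {N : ℕ}
  (h : Sys2 φ Nn N) {two : Fˣ} (h2 : (two : F) = 2)

include h h2 in
/-- the case in which `2` is smaller than `1` -/
lemma card_b (hb : Bad φ) (hnle : ¬ Le φ (14 * N ^ 2) 1 two) (G : Finset A)
    (hG : ∀ g ∈ G, ∃ r s : Fˣ, Dec φ r s ∧ φ r = g) : G.card ≤ N := by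
  classical
  by_contra hcard
  push Not at hcard
  have hk := h.ker
  have hL := hl2 h
  set M := N ^ 2 with hM
  obtain ⟨a, ha⟩ : G.Nonempty := Finset.card_pos.1 (by omega)
  obtain ⟨r, s, hd, hra⟩ := hG a ha
  have hε := bad_neg hd hb
  have hny : ∀ u : Fˣ, φ (-u) = φ u := fun u => by rw [map_neg', hε, one_mul]
  have hneg := neg_le hL hd hε
  have nosm : ∀ ρ : Fˣ, φ ρ ≠ 1 → Ml φ ρ 1 → ¬ Le φ (6 * M) 1 ρ := fun ρ h1 h3 h4 =>
    no_small hk hL hd h2 hε hnle h1 h3 h4
  choose! x y hdx hx using hG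
  -- `1 - r x²`
  have hu : ∀ g : A, ∃ u : Fˣ, (u : F) = 1 + ((-(r * x g ^ 2) : Fˣ) : F) := by
    intro g
    have h0 : (1 : F) + ((-(r * x g ^ 2) : Fˣ) : F) ≠ 0 := by
      have := ne_of_phi (φ := φ) (x := 1) (y := -(r * x g ^ 2)) (by
        rw [map_one, neg_neg, map_mul, phi_sq hk, mul_one]
        exact fun e => hd.r1 e.symm)
      rwa [Units.val_one] at this
    exact ⟨Units.mk0 _ h0, Units.val_mk0 _⟩
  choose u hu using hu
  have hφr : ∀ g : A, φ (-(r * x g ^ 2)) = a := by
    intro g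
    rw [hny, map_mul, phi_sq hk, mul_one, hra]
  have hun : ∀ g : A, φ (u g) ∈ Nn a := by
    intro g
    have h1 := h.sum _ _ (hu g)
    rwa [hny, hφr] at h1
  have ha1 : a ≠ 1 := by rw [← hra]; exact hd.r1
  obtain ⟨hfin, hcN⟩ := h.fin a ha1
  have hmaps : Set.MapsTo (fun g => φ (u g)) (G : Set A) (hfin.toFinset : Set A) := by
    intro g _
    rw [Finset.mem_coe, Set.Finite.mem_toFinset]
    exact hun g
  have hlt : hfin.toFinset.card < G.card := by
    rw [← Set.ncard_eq_toFinset_card _ hfin]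
    omega
  obtain ⟨g, hg, g', hg', hgg, hue⟩ := Finset.exists_ne_map_eq_of_card_lt_of_maps_to hlt hmaps
  have hue : φ (u g) = φ (u g') := hue
  -- units
  have hle1 := (hdx g hg).le_r hL
  have hge1 := (hdx g hg).r_le hL
  have hle2 := (hdx g' hg').le_r hL
  have hge2 := (hdx g' hg').r_le hL
  have hxg := hx g hg
  have hxg' := hx g' hg'
  set X := x g with hX
  set Z := x g' with hZ
  have hXZ : φ X ≠ φ Z := by rw [hxg, hxg']; exact hgg
  -- `1 ≤ -X/Z`, `1 ≤ -Z/X`
  have hq : ∀ X Z : Fˣ, Le φ M 1 X → Le φ M Z 1 → Le φ (6 * M) 1 (-(X / Z)) := by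
    intro X Z h1 h3
    have h4 := le1_mul hneg (le1_mul h1 (le1_inv h3))
    rw [← div_eq_mul_inv, neg_one_mul] at h4
    exact le_mono (by omega) h4
  have hdec : ∃ t : Fˣ, Dec φ (X / Z) t ∧ (t : F) = 1 - X / Z := by
    have h0 : (1 : F) - (X / Z : F) ≠ 0 := by
      intro e
      apply hXZ
      have e1 : (X : F) = Z := by
        have e2 : (X : F) / Z = 1 := by linear_combination (-1) * e
        rwa [div_eq_one_iff_eq Z.ne_zero] at e2
      rw [Units.ext e1]
    refine ⟨Units.mk0 _ h0, ?_, Units.val_mk0 _⟩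
    set t := Units.mk0 _ h0 with ht
    have htv : (t : F) = 1 - X / Z := Units.val_mk0 _
    have hr1 : φ (X / Z) ≠ 1 := by rw [map_div]; exact fun e => hXZ (div_eq_one.1 e)
    refine dec_of hε ?_ hr1 ?_ ?_
    · rw [htv, Units.val_div_eq_div_val]; ring
    · intro e
      refine nosm (-(X / Z)) ?_ ?_ (hq X Z hle1 hge2)
      · rw [hny]; exact hr1
      · refine ⟨t, ?_, by rw [e, map_one]⟩
        rw [htv, Units.val_one, Units.val_neg, Units.val_div_eq_div_val]; ring
    · intro e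
      refine nosm (-(Z / X)) ?_ ?_ (hq Z X hle2 hge1)
      · rw [hny, map_div]; exact fun e => hXZ (div_eq_one.1 e).symm
      · refine ⟨-(t / (X / Z)), ?_, ?_⟩
        · rw [Units.val_neg, Units.val_div_eq_div_val, htv, Units.val_div_eq_div_val,
            Units.val_one, Units.val_neg, Units.val_div_eq_div_val]
          have hX0 : (X : F) ≠ 0 := X.ne_zero
          have hZ0 : (Z : F) ≠ 0 := Z.ne_zero
          field_simp
          ring
        · rw [hny, map_div, e, div_self', map_one]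
  obtain ⟨t, hdt, htv⟩ := hdec
  obtain ⟨q, hqv⟩ := hdt.exists_q
  obtain ⟨hqt, -⟩ := hb _ _ hdt q hqv
  -- `Z² - X² = Z² t q`
  have hφu : φ (u g') ≠ a := by
    intro e
    refine nosm (-(1 / (r * Z ^ 2))) ?_ ?_ ?_
    · rw [hny, map_div, map_one, map_mul, phi_sq hk, mul_one, one_div, phi_inv hk]
      exact hd.r1
    · refine ⟨-(u g' / (r * Z ^ 2)), ?_, ?_⟩
      · rw [Units.val_neg, Units.val_div_eq_div_val, hu, Units.val_neg, Units.val_neg,
          Units.val_div_eq_div_val, Units.val_one]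
        have h3 : ((r * Z ^ 2 : Fˣ) : F) ≠ 0 := Units.ne_zero _
        field_simp
        ring
      · rw [hny, map_div, e, map_one, map_mul, phi_sq hk, mul_one, hra, div_self']
    · have h3 := le1_mul hneg (le1_mul (le1_inv (hd.r_le hL)) (le1_mul (le1_inv hge2)
        (le1_inv hge2)))
      have e1 : -1 * (r⁻¹ * (Z⁻¹ * Z⁻¹)) = -(1 / (r * Z ^ 2)) := by
        rw [neg_one_mul, one_div, ← mul_inv, ← mul_inv, ← pow_two]
      rw [e1] at h3
      exact le_mono (by omega) h3
  -- the small unit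
  refine nosm (r * (Z ^ 2 * (t * q)) / u g') ?_ ?_ ?_
  · rw [map_div, map_mul, map_mul, map_mul, phi_sq hk, one_mul, hqt, phi_mul_self hk, mul_one, hra]
    exact fun e => hφu (div_eq_one.1 e).symm
  · refine ⟨u g / u g', ?_, ?_⟩
    · rw [Units.val_div_eq_div_val, Units.val_div_eq_div_val, Units.val_one, hu g, Units.val_mul,
        Units.val_mul, Units.val_mul, htv, hqv, Units.val_div_eq_div_val]
      have h3 : ((u g' : Fˣ) : F) ≠ 0 := Units.ne_zero _
      have hZ0 : (Z : F) ≠ 0 := Z.ne_zero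
      rw [Units.val_pow_eq_pow_val]
      have e2 := hu g'
      rw [Units.val_neg, Units.val_mul, Units.val_pow_eq_pow_val] at e2
      rw [Units.val_neg, Units.val_mul, Units.val_pow_eq_pow_val, ← hX]
      rw [← hZ] at e2
      field_simp
      rw [e2]
      ring
    · rw [map_div, hue, div_self', map_one]
  · -- lower bounds
    have ht1 : Le φ M 1 t := hdt.le_s hL
    have hq1 : Le φ M 1 q := by
      refine hL 1 (X / Z) q ?_ ?_
      · rw [Units.val_one, hqv]
      · rw [map_one, hny]; exact fun e => hdt.r1 e.symm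
    have hu1 : Le φ M (u g') 1 := by
      refine hL (u g') (r * Z ^ 2) 1 ?_ ?_
      · rw [hu, Units.val_one, Units.val_neg]; ring
      · rw [hny, map_mul, phi_sq hk, mul_one, hra]; exact hφu
    have h3 := le1_mul (hd.le_r hL) (le1_mul (le1_mul hle2 hle2) (le1_mul ht1 hq1))
    have h4 := le1_mul h3 (le1_inv hu1)
    rw [← pow_two, ← div_eq_mul_inv] at h4
    exact le_mono (by omega) h4

include h h2 in
/-- the number of classes that are not rigid -/
theorem card_dec (G : Finset A) (hG : ∀ g ∈ G, ∃ r s : Fˣ, Dec φ r s ∧ φ r = g) :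
    G.card ≤ 14 * N ^ 2 + 1 := by
  have hk := h.ker
  have hL := hl2 h
  by_cases hb : Bad φ
  · by_cases hle : Le φ (14 * N ^ 2) 1 two
    · exact (card_a hk h2 hb hle G hG).trans (Nat.le_succ _)
    · have h1 := card_b h h2 hb hle G hG
      nlinarith
  · unfold Bad at hb
    push Not at hb
    obtain ⟨r, s, hd, q, hq, hne⟩ := hb
    have hle : Le φ (2 * N ^ 2) 1 two := by
      refine two_of hL hd h2 hq ?_
      by_cases h1 : φ q = φ s
      · exact Or.inr (hne h1)
      · exact Or.inl h1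
    have h1 := su2 (φ := φ) (k := 7 * N ^ 2) G (by
      intro g hg
      obtain ⟨r, s, hd, rfl⟩ := hG g hg
      exact exists_w hk hL hd h2 hle)
    omega

include h h2 in
/-- the set of the classes that are not rigid is finite -/
theorem ncard_dec : {g : A | ∃ r s : Fˣ, Dec φ r s ∧ φ r = g}.Finite ∧
    {g : A | ∃ r s : Fˣ, Dec φ r s ∧ φ r = g}.ncard ≤ 14 * N ^ 2 + 1 := by
  have hf : {g : A | ∃ r s : Fˣ, Dec φ r s ∧ φ r = g}.Finite := by
    by_contra hc
    obtain ⟨t, ht, htc⟩ := (Set.not_finite.1 hc : Set.Infinite _).exists_subset_card_eq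
      (14 * N ^ 2 + 2)
    have := card_dec h h2 t fun g hg => ht hg
    omega
  refine ⟨hf, ?_⟩
  rw [Set.ncard_eq_toFinset_card _ hf]
  exact card_dec h h2 _ fun g hg => (Set.Finite.mem_toFinset hf).1 hg

end

end Pool.Agent.E8helper26.ETC
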