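import Mathlib
import Pool.Agent.E8helper26.ETC.Count
import Pool.Agent.Y920.ETC.FieldH

set_option autoImplicit false

/-! Fields with small norm groups, `p = 2`: the basic part and the valuation ring. -/

namespace Pool.Agent.E8helper26.ETC

open scoped Quaternion
open Pool.Agent.H315R3.ETC Pool.Agent.TH188.ET Pool.Agent.Y920.ETC
open Pool.Agent.Y920.EP (Le Ml)

variable {F : Type} [Field F]

lemma pair_le {α : Type} (a b : α) : ({a, b} : Set α).ncard ≤ 2 := by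
  have h := Set.ncard_insert_le a {b}
  rwa [Set.ncard_singleton] at h

/-- the class group as an abstract group -/
lemma exists_quot (F : Type) [Field F] (T : Subgroup Fˣ) : ∃ (A : Type) (_ : CommGroup A)
    (φ : Fˣ →* A), Function.Surjective φ ∧ φ.ker = T :=
  ⟨Fˣ ⧸ T, inferInstance, QuotientGroup.mk' T, QuotientGroup.mk'_surjective T,
    QuotientGroup.ker_mk' T⟩

section

variable {S : QData} {φ : Fˣ →* S.G} (hs : Function.Surjective φ)
  (hk : ∀ a : Fˣ, φ a = 1 ↔ ∃ b : Fˣ, a = b ^ 2) (hn : φ (-1) = S.neg)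
  (h0 : S.q 1 1 = S.zero)
  (hq : ∀ a b c d : Fˣ, S.q (φ a) (φ b) = S.q (φ c) (φ d) ↔
      Nonempty (ℍ[F,(a : F),0,(b : F)] ≃ₐ[F] ℍ[F,(c : F),0,(d : F)]))
  (h2 : (2 : F) ≠ 0) (hS : IsQuat S)

/-- the value groups as subgroups -/
def VG (hS : IsQuat S) (a : S.G) : Subgroup S.G where
  carrier := {b | S.q a b = S.zero}
  one_mem' := q_one hS a
  mul_mem' := fun h1 h3 => p_mul hS h1 h3
  inv_mem' := fun {b} hb => by
    have : b⁻¹ = b := inv_eq_of_mul_eq_one_left (hS.exp2 b)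
    rw [this]
    exact hb

include hs hk h0 hq h2 in
lemma sys2 {N : ℕ} (hN : ∀ a : Fˣ, a ∉ sqG F →
      (sqG F).relIndex (nG a) ≠ 0 ∧ (sqG F).relIndex (nG a) ≤ N) : Sys2 φ (VG hS) N := by
  refine ⟨hk, ?_, ?_, ?_⟩
  · intro a b hab
    show S.q b a = S.zero
    rw [hS.qs2]
    exact hab
  · intro u v huv
    show S.q (φ (-u)) (φ v) = S.zero
    rw [q_zero h0 hq h2]
    exact ⟨1, 1, by rw [huv, Units.val_neg]; ring⟩
  · intro a ha
    obtain ⟨x, rfl⟩ := hs a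
    have hx : x ∉ sqG F := by
      rw [mem_sqG, ← hk]
      exact ha
    obtain ⟨h1, h3⟩ := hN x hx
    rw [← vs_eq hs hk h0 hq h2] at h1 h3
    exact ⟨Set.finite_of_ncard_ne_zero h1, h3⟩

include hs hk hn h0 hq h2 in
/-- elements that are not rigid come from decompositions of `1` -/
lemma dec_of_not_hr {a : S.G} (ha1 : a ≠ 1) (han : a ≠ S.neg) (hr : ¬ Hr S a) :
    ∃ r s : Fˣ, Dec φ r s ∧ φ r = a := by
  unfold Hr at hr
  push Not at hr
  obtain ⟨e, he, he1, he2⟩ := hr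
  obtain ⟨x, rfl⟩ := hs a
  obtain ⟨y, rfl⟩ := hs e
  rw [q_zero h0 hq h2] at he
  obtain ⟨X, Y, hXY⟩ := he
  have hX : X ≠ 0 := by
    rintro rfl
    apply he2
    have hY : Y ≠ 0 := by
      rintro rfl
      apply y.ne_zero
      rw [hXY]; ring
    have : y = -1 * x * (Units.mk0 Y hY) ^ 2 := by
      ext
      rw [hXY, Units.val_mul, Units.val_mul, Units.val_neg, Units.val_one, Units.val_pow_eq_pow_val,
        Units.val_mk0]
      ring
    rw [this, map_mul, map_mul, phi_sq hk, mul_one, hn]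
  have hY : Y ≠ 0 := by
    rintro rfl
    apply he1
    have : y = (Units.mk0 X hX) ^ 2 := by
      ext
      rw [hXY, Units.val_pow_eq_pow_val, Units.val_mk0]
      ring
    rw [this, phi_sq hk]
  have hφr : φ (x * (Units.mk0 (Y / X) (div_ne_zero hY hX)) ^ 2) = φ x := by
    rw [map_mul, phi_sq hk, mul_one]
  have hφs : φ (y * (Units.mk0 (1 / X) (one_div_ne_zero hX)) ^ 2) = φ y := by
    rw [map_mul, phi_sq hk, mul_one]
  refine ⟨x * (Units.mk0 (Y / X) (div_ne_zero hY hX)) ^ 2,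
    y * (Units.mk0 (1 / X) (one_div_ne_zero hX)) ^ 2, ⟨?_, ?_, ?_, ?_, ?_⟩, hφr⟩
  · rw [Units.val_mul, Units.val_mul, Units.val_pow_eq_pow_val, Units.val_pow_eq_pow_val,
      Units.val_mk0, Units.val_mk0, hXY]
    field_simp
    ring
  · rw [hφr]; exact ha1
  · rw [hφr, hn]; exact han
  · rw [hφs]; exact he1
  · rw [map_neg', hφr, hφs, hn]; exact he2

include hs hk hn h0 hq h2 hS in
/-- the basic part is small -/
theorem card_basic {N : ℕ} (hN : ∀ a : Fˣ, a ∉ sqG F →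
      (sqG F).relIndex (nG a) ≠ 0 ∧ (sqG F).relIndex (nG a) ≤ N) (B : Subgroup S.G)
    (hB : ∀ a : S.G, a ∈ B ↔ ¬ Bi S a) :
    (B : Set S.G).Finite ∧ (B : Set S.G).ncard ≤ 28 * N ^ 2 + 4 := by
  obtain ⟨two, htwo⟩ : ∃ u : Fˣ, (u : F) = 2 := ⟨Units.mk0 2 h2, Units.val_mk0 _⟩
  obtain ⟨hf, hc⟩ := ncard_dec (sys2 hs hk h0 hq h2 hS hN) htwo
  set R := {g : S.G | ∃ r s : Fˣ, Dec φ r s ∧ φ r = g} with hR
  have hsub : (B : Set S.G) ⊆ ({1, S.neg} ∪ R) ∪ (S.neg * ·) '' R := by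
    intro a ha
    have ha' : ¬ Bi S a := (hB a).1 ha
    by_cases ha1 : a = 1
    · exact Or.inl (Or.inl (Or.inl ha1))
    by_cases han : a = S.neg
    · exact Or.inl (Or.inl (Or.inr han))
    by_cases h3 : Hr S a
    · have h4 : ¬ Hr S (S.neg * a) := fun h4 => ha' ⟨ha1, han, h3, h4⟩
      right
      refine ⟨S.neg * a, ?_, by
        show S.neg * (S.neg * a) = a
        rw [← mul_assoc, hS.exp2, one_mul]⟩
      refine dec_of_not_hr hs hk hn h0 hq h2 ?_ ?_ h4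
      · intro e
        apply han
        exact (eq_of_mul hS _ _ e).symm
      · intro e
        exact ha1 (mul_eq_left.1 e)
    · exact Or.inl (Or.inr (dec_of_not_hr hs hk hn h0 hq h2 ha1 han h3))
  have hfin : (({1, S.neg} ∪ R) ∪ (S.neg * ·) '' R : Set S.G).Finite :=
    ((Set.toFinite _).union hf).union (hf.image _)
  refine ⟨hfin.subset hsub, (Set.ncard_le_ncard hsub hfin).trans ?_⟩
  have h3 := Set.ncard_union_le (({1, S.neg} : Set S.G) ∪ R) ((S.neg * ·) '' R)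
  have h4 := Set.ncard_union_le ({1, S.neg} : Set S.G) R
  have h5 : ({1, S.neg} : Set S.G).ncard ≤ 2 := pair_le _ _
  have h6 : ((S.neg * ·) '' R).ncard ≤ R.ncard := Set.ncard_image_le hf
  omega

include hs hk hn h0 hq h2 hS in
/-- the basic part is small: a bound with powers of two -/
theorem card_basic' {N : ℕ} (hN1 : 1 ≤ N) (hN : ∀ a : Fˣ, a ∉ sqG F →
      (sqG F).relIndex (nG a) ≠ 0 ∧ (sqG F).relIndex (nG a) ≤ N) (B : Subgroup S.G)
    (hB : ∀ a : S.G, a ∈ B ↔ ¬ Bi S a) :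
    Finite B ∧ Nat.card B ≤ 16 * N ^ 2 := by
  set N' := 2 ^ Nat.log 2 N with hN'
  have hle : N' ≤ N := Nat.pow_log_le_self 2 (by omega)
  have hP : IsPGroup 2 S.G := fun g => ⟨1, by rw [pow_one, pow_two]; exact hS.exp2 g⟩
  have hNN : ∀ a : Fˣ, a ∉ sqG F →
      (sqG F).relIndex (nG a) ≠ 0 ∧ (sqG F).relIndex (nG a) ≤ N' := by
    intro a ha
    obtain ⟨h1, h3⟩ := hN a ha
    refine ⟨h1, ?_⟩
    have h4 : (sqG F).relIndex (nG a) = Nat.card (VG hS (φ a)) := by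
      rw [← vs_eq hs hk h0 hq h2]
      rfl
    rw [h4] at h1 h3 ⊢
    have hfin : Finite (VG hS (φ a)) := Nat.finite_of_card_ne_zero h1
    obtain ⟨n, hn'⟩ := IsPGroup.iff_card.1 (hP.to_subgroup (VG hS (φ a)))
    rw [hn'] at h3 ⊢
    exact Nat.pow_le_pow_right (by norm_num) ((Nat.le_log_iff_pow_le (by norm_num) (by omega)).2 h3)
  obtain ⟨hf, hc⟩ := card_basic hs hk hn h0 hq h2 hS hNN B hB
  have hBf : Finite B := hf
  refine ⟨hBf, ?_⟩
  have hc' : Nat.card B ≤ 28 * N' ^ 2 + 4 := hc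
  obtain ⟨m, hm⟩ := IsPGroup.iff_card.1 (hP.to_subgroup B)
  have hfinal : Nat.card B ≤ 16 * N' ^ 2 := by
    rcases Nat.eq_zero_or_pos (Nat.log 2 N) with hl | hl
    · -- all classes are `1` or `-1`
      have hN1' : N' = 1 := by rw [hN', hl, pow_zero]
      have hsub : (B : Set S.G) ⊆ {1, S.neg} := by
        intro a _
        by_cases ha1 : a = 1
        · exact Or.inl ha1
        right
        obtain ⟨x, rfl⟩ := hs a
        have hx : x ∉ sqG F := by
          rw [mem_sqG, ← hk]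
          exact ha1
        obtain ⟨h1, h3⟩ := hNN x hx
        have h4 : (sqG F).relIndex (nG x) = Nat.card (VG hS (φ x)) := by
          rw [← vs_eq hs hk h0 hq h2]
          rfl
        rw [h4, hN1'] at h3
        rw [h4] at h1
        have hfin : Finite (VG hS (φ x)) := Nat.finite_of_card_ne_zero h1
        have h5 : S.neg * φ x ∈ VG hS (φ x) := hS.qs1 _
        have h6 := (Subgroup.card_le_one_iff_eq_bot _).1 h3
        rw [h6, Subgroup.mem_bot] at h5
        exact (eq_of_mul hS _ _ h5).symm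
      have h5 : ({1, S.neg} : Set S.G).ncard ≤ 2 := pair_le _ _
      have h6 := Set.ncard_le_ncard hsub (Set.toFinite _)
      have h7 : Nat.card B = (B : Set S.G).ncard := rfl
      rw [hN1']
      omega
    · have h4 : 4 ≤ N' ^ 2 := by
        rw [hN', ← pow_mul]
        calc 4 = 2 ^ 2 := by norm_num
          _ ≤ _ := Nat.pow_le_pow_right (by norm_num) (by omega)
      have h5 : Nat.card B < 32 * N' ^ 2 := by omega
      have h6 : 32 * N' ^ 2 = 2 ^ (Nat.log 2 N * 2 + 5) := by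
        rw [hN', ← pow_mul, pow_add]
        ring
      have h7 : 16 * N' ^ 2 = 2 ^ (Nat.log 2 N * 2 + 4) := by
        rw [hN', ← pow_mul, pow_add]
        ring
      rw [hm, h6] at h5
      rw [hm, h7]
      have h8 := (Nat.pow_lt_pow_iff_right (by norm_num)).1 h5
      exact Nat.pow_le_pow_right (by norm_num) (by omega)
  exact hfinal.trans (Nat.mul_le_mul_left _ (Nat.pow_le_pow_left hle 2))

include hk h0 hq hn in
/-- the valuation ring -/
theorem exists_val (h2 : (2 : F) ≠ 0) (B : Subgroup S.G) (hBf : Finite B)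
    (hB : ∀ a : S.G, a ∈ B ↔ ¬ Bi S a) :
    ∃ (O : ValuationSubring F) (U : Subgroup Fˣ), Sqr O ∧ O.unitGroup ≤ U ∧ sqG F ≤ U ∧
      (sqG F).relIndex U ≠ 0 ∧ (sqG F).relIndex U ≤ 2 * Nat.card B := by
  obtain ⟨z, H', hH', hR', hP'⟩ := Pool.Agent.Y925.ET.t_WA F _ _ (rigidPair hk hn h0 hq h2 B hB)
  obtain ⟨O, hO⟩ := Pool.Agent.Y447.ET.t_WB F _ _ hR' hP'
  have hT : ∀ x : Fˣ, x ∈ sqG F ↔ ∃ y : Fˣ, x = y * y := by
    intro x
    rw [mem_sqG]
    constructor
    · rintro ⟨y, rfl⟩; exact ⟨y, pow_two y⟩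
    · rintro ⟨y, rfl⟩; exact ⟨y, (pow_two y).symm⟩
  obtain ⟨O', hOO', h2O', hO'⟩ := Pool.Agent.Y67.ET.t_COARSE F h2 _ _ hT hR'.le O hO
  have hfB : (B : Set S.G).Finite := Set.toFinite _
  have hcov : ((H'.map φ : Subgroup S.G) : Set S.G) ⊆ (B : Set S.G) ∪
      ((fun b => b * φ z⁻¹) '' (B : Set S.G)) := by
    rintro g ⟨y, hy, rfl⟩
    rcases (hH' y).1 hy with h3 | h3
    · exact Or.inl h3
    · right
      refine ⟨φ (y * z), h3, ?_⟩
      show φ (y * z) * φ z⁻¹ = φ y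
      rw [← map_mul, mul_inv_cancel_right]
  have hfin : ((B : Set S.G) ∪ ((fun b => b * φ z⁻¹) '' (B : Set S.G))).Finite :=
    hfB.union (hfB.image _)
  have hcard : ((B : Set S.G) ∪ ((fun b => b * φ z⁻¹) '' (B : Set S.G))).ncard ≤
      2 * Nat.card B := by
    refine (Set.ncard_union_le _ _).trans ?_
    have h3 : ((fun b => b * φ z⁻¹) '' (B : Set S.G)).ncard ≤ (B : Set S.G).ncard :=
      Set.ncard_image_le hfB
    have h4 : (B : Set S.G).ncard = Nat.card B := rfl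
    omega
  have hidx : (sqG F).relIndex H' = Nat.card (H'.map φ) := by
    rw [← ker_eq hk, Subgroup.relIndex_ker]
  have hfH : Finite (H'.map φ) := hfin.subset hcov
  refine ⟨O', H', ⟨h2O', h2, ?_⟩, ?_, hR'.le, ?_, ?_⟩
  · intro x hx hx'
    obtain ⟨t, ht, hte⟩ := hO'.one x hx hx'
    obtain ⟨y, rfl⟩ := (hT t).1 ht
    exact ⟨y, by rw [← hte, Units.val_mul]⟩
  · intro u hu
    refine hO'.units u ?_ ?_
    · exact (O'.valuation_le_one_iff _).1 ((ValuationSubring.mem_unitGroup_iff _ _).1 hu).le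
    · refine (O'.valuation_le_one_iff _).1 ?_
      rw [Units.val_inv_eq_inv_val, map_inv₀, (ValuationSubring.mem_unitGroup_iff _ _).1 hu,
        inv_one]
  · rw [hidx]
    exact Nat.card_pos.ne'
  · rw [hidx]
    exact (Set.ncard_le_ncard hcov hfin).trans hcard

end

/-- fields with norm groups of size at most `N` -/
theorem exists_ring (h2 : (2 : F) ≠ 0) {N : ℕ} (hN1 : 1 ≤ N) (hN : ∀ a : Fˣ, a ∉ sqG F →
      (sqG F).relIndex (nG a) ≠ 0 ∧ (sqG F).relIndex (nG a) ≤ N) :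
    ∃ (O : ValuationSubring F) (U : Subgroup Fˣ), Sqr O ∧ O.unitGroup ≤ U ∧ sqG F ≤ U ∧
      (sqG F).relIndex U ≠ 0 ∧ (sqG F).relIndex U ≤ 32 * N ^ 2 := by
  obtain ⟨A, _, φ, hs, hker⟩ := exists_quot F (sqG F)
  have hk : ∀ a : Fˣ, φ a = 1 ↔ ∃ b : Fˣ, a = b ^ 2 := by
    intro a
    rw [← mem_sqG, ← hker, MonoidHom.mem_ker]
  have hq := mkS_q h2 hk
  have hS : IsQuat (mkS φ) := isQuat (S := mkS φ) h2 φ hs hk rfl rfl hq
  obtain ⟨B, hB⟩ := Pool.Agent.Y67.ET.t_BASIC (mkS φ) hS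
  obtain ⟨hBf, hBc⟩ := card_basic' (S := mkS φ) (φ := φ) hs hk rfl rfl hq h2 hS hN1 hN B hB
  obtain ⟨O, U, h3, h4, h5, h6, h7⟩ := exists_val (S := mkS φ) (φ := φ) hk rfl rfl hq h2 B hBf hB
  exact ⟨O, U, h3, h4, h5, h6, by omega⟩

end Pool.Agent.E8helper26.ETC
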