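import Mathlib
import Pool.Agent.E8helper26.ETC.Field

set_option autoImplicit false

/-! Fields with small norm groups, `p = 2`: the number of norm groups with more than two classes. -/

namespace Pool.Agent.E8helper26.ETC

open scoped Quaternion
open Pool.Agent.H315R3.ETC Pool.Agent.TH188.ET Pool.Agent.Y920.ETC

variable {F : Type} [Field F]

/-- the classes of the `a` such that `a, -a` are not squares and the norm group of `F(√a)` has more
than two classes -/
def big (F : Type) [Field F] : Set (Fˣ ⧸ sqG F) :=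
  {c | ∃ a : Fˣ, (a : Fˣ ⧸ sqG F) = c ∧ a ∉ sqG F ∧ -a ∉ sqG F ∧ 2 < (sqG F).relIndex (nG a)}

theorem ncard_big (h2 : (2 : F) ≠ 0) {N : ℕ} (hN : ∀ a : Fˣ, a ∉ sqG F →
      (sqG F).relIndex (nG a) ≠ 0 ∧ (sqG F).relIndex (nG a) ≤ N) :
    (big F).Finite ∧ (big F).ncard ≤ 14 * N ^ 2 + 1 := by
  obtain ⟨A, _, φ, hs, hker⟩ := exists_quot F (sqG F)
  have hk : ∀ a : Fˣ, φ a = 1 ↔ ∃ b : Fˣ, a = b ^ 2 := by
    intro a
    rw [← mem_sqG, ← hker, MonoidHom.mem_ker]
  have hq := mkS_q h2 hk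
  have hS : IsQuat (mkS φ) := isQuat (S := mkS φ) h2 φ hs hk rfl rfl hq
  obtain ⟨two, htwo⟩ : ∃ u : Fˣ, (u : F) = 2 := ⟨Units.mk0 2 h2, Units.val_mk0 _⟩
  have hsys : Sys2 (φ : Fˣ →* (mkS φ).G) (VG hS) N := sys2 (S := mkS φ) (φ := φ) hs hk rfl hq h2 hS hN
  obtain ⟨hf, hc⟩ := ncard_dec hsys htwo
  set R : Set (mkS φ).G := {g | ∃ r s : Fˣ, Dec (φ : Fˣ →* (mkS φ).G) r s ∧ φ r = g} with hR
  -- the map on the quotient
  let ψ : Fˣ ⧸ sqG F → A := Quotient.lift φ (by
    intro a b hab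
    have h1 : a⁻¹ * b ∈ sqG F := QuotientGroup.leftRel_apply.1 hab
    rw [← hker, MonoidHom.mem_ker, map_mul, map_inv] at h1
    exact (inv_mul_eq_one.1 h1))
  have hψ : ∀ a : Fˣ, ψ (a : Fˣ ⧸ sqG F) = φ a := fun _ => rfl
  have hinj : Function.Injective ψ := by
    intro c d hcd
    induction c using QuotientGroup.induction_on with
    | H a =>
      induction d using QuotientGroup.induction_on with
      | H b =>
        rw [hψ, hψ] at hcd
        rw [QuotientGroup.eq, ← hker, MonoidHom.mem_ker, map_mul, map_inv, hcd, inv_mul_cancel]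
  have hmap : ∀ c ∈ big F, ψ c ∈ R := by
    rintro c ⟨a, rfl, ha, hna, hbig⟩
    rw [hψ]
    have ha1 : φ a ≠ 1 := by
      rw [Ne, hk, ← mem_sqG]; exact ha
    have han : φ a ≠ φ (-1) := by
      intro e
      apply hna
      rw [mem_sqG, ← hk, map_neg', e, neg_neg_one]
    refine dec_of_not_hr (S := mkS φ) (φ := φ) hs hk rfl rfl hq h2 ha1 han ?_
    intro hr
    have h3 : vs (mkS φ) (φ a) = (sqG F).relIndex (nG a) :=
      vs_eq (S := mkS φ) (φ := φ) hs hk rfl hq h2 a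
    rw [← h3] at hbig
    obtain ⟨x, hx⟩ : ∃ x : (mkS φ).G, x = φ a := ⟨_, rfl⟩
    rw [← hx] at hr hbig
    have h4 : {b : (mkS φ).G | (mkS φ).q x b = (mkS φ).zero} ⊆
        ({1, (mkS φ).neg * x} : Set (mkS φ).G) := by
      intro b hb
      exact hr b hb
    have h5 := Set.ncard_le_ncard h4 (Set.toFinite _)
    have h6 : ({1, (mkS φ).neg * x} : Set (mkS φ).G).ncard ≤ 2 := pair_le _ _
    have h7 : vs (mkS φ) x = {b : (mkS φ).G | (mkS φ).q x b = (mkS φ).zero}.ncard := rfl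
    omega
  constructor
  · exact Set.Finite.of_finite_image (hf.subset (by rintro _ ⟨c, hc', rfl⟩; exact hmap c hc'))
      hinj.injOn
  · exact (Set.ncard_le_ncard_of_injOn ψ hmap hinj.injOn hf).trans hc

end Pool.Agent.E8helper26.ETC
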