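import Mathlib
import Pool.Agent.Y920.ETC.FieldH

set_option autoImplicit false

/-! Partitions of `F*/F*²` which respect sums: at most one part contains non-rigid elements, if `-1` is
a square. -/

namespace Pool.Agent.E8helper26.ETC

open Pool.Agent.Y920.ETC

variable {F : Type} [Field F]

/-- `1 + w` is a nonzero square -/
def Smq (w : Fˣ) : Prop := ∃ t ∈ sqG F, (t : F) = 1 + w

/-- multiplication by `h` preserves the small elements outside of `K` -/
def Stb (K : Subgroup Fˣ) (h : Fˣ) : Prop := h ∈ K ∧ ∀ w : Fˣ, w ∉ K → Smq w → Smq (w * h)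

/-- `x + y = z` implies `x ≤ z` if `-xy` is not a square -/
def Gd (K : Subgroup Fˣ) : Prop := ∀ x y z : Fˣ, x ∈ K → y ∈ K → z ∈ K → (x : F) + y = z →
  -(x * y) ∉ sqG F → Stb K (x * z⁻¹)

/-- `r + s = 1` and none of `r, -r, s, -rs` is a square -/
structure Dc (r s : Fˣ) : Prop where
  sum : (r : F) + s = 1
  r1 : r ∉ sqG F
  r2 : -r ∉ sqG F
  s1 : s ∉ sqG F
  rs : -(r * s) ∉ sqG F

lemma sq_mem (x : Fˣ) : x ^ 2 ∈ sqG F := mem_sqG.2 ⟨x, rfl⟩

lemma sq_mem' (x : Fˣ) : x * x ∈ sqG F := mem_sqG.2 ⟨x, (pow_two x).symm⟩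

/-- multiplication by a square -/
lemma mul_sqm {x t : Fˣ} (ht : t ∈ sqG F) : x * t ∈ sqG F ↔ x ∈ sqG F :=
  Subgroup.mul_mem_cancel_right _ ht

lemma sqm_mul {x t : Fˣ} (ht : t ∈ sqG F) : t * x ∈ sqG F ↔ x ∈ sqG F :=
  Subgroup.mul_mem_cancel_left _ ht

/-- `x y⁻¹` and `x y` -/
lemma inv_sqm {x y : Fˣ} : x * y⁻¹ ∈ sqG F ↔ x * y ∈ sqG F := by
  have h : x * y = x * y⁻¹ * (y * y) := by group
  rw [h, mul_sqm (sq_mem' y)]

lemma smq_inv {w : Fˣ} (h1 : Smq w) (h2 : Smq w⁻¹) : w ∈ sqG F := by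
  obtain ⟨t, ht, e1⟩ := h1
  obtain ⟨t', ht', e2⟩ := h2
  have h3 : t = w * t' := by
    ext
    rw [Units.val_mul, e1, e2, Units.val_inv_eq_inv_val]
    field_simp
    ring
  rw [h3] at ht
  exact (mul_sqm ht').1 ht

lemma Stb.mul {K : Subgroup Fˣ} {h h' : Fˣ} (h1 : Stb K h) (h2 : Stb K h') : Stb K (h * h') := by
  refine ⟨K.mul_mem h1.1 h2.1, fun w hw hs => ?_⟩
  rw [← mul_assoc]
  exact h2.2 _ (fun h3 => hw ((K.mul_mem_cancel_right h1.1).1 h3)) (h1.2 w hw hs)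

lemma Stb.congr {K : Subgroup Fˣ} {h h' : Fˣ} (h1 : Stb K h) (e : h = h') : Stb K h' := e ▸ h1

section

variable {K : Subgroup Fˣ}

/-- the stabilizer of the small elements contains the non-rigid elements and `-1` -/
lemma stb_dc (hK : Gd K) (hneg : (-1 : Fˣ) ∈ K) {r s : Fˣ} (hd : Dc r s) (hr : r ∈ K) (hs : s ∈ K) :
    Stb K r ∧ Stb K r⁻¹ ∧ Stb K s ∧ Stb K s⁻¹ ∧ Stb K (-1) := by
  have e := hd.sum
  have hnr : -r ∈ K := by rw [← neg_one_mul]; exact K.mul_mem hneg hr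
  have hns : -s ∈ K := by rw [← neg_one_mul]; exact K.mul_mem hneg hs
  have h1 : Stb K r := (hK r s 1 hr hs K.one_mem (by rw [e, Units.val_one]) hd.rs).congr (by simp)
  have h2 : Stb K s := (hK s r 1 hs hr K.one_mem (by rw [add_comm, e, Units.val_one])
    (by rw [mul_comm]; exact hd.rs)).congr (by simp)
  have e1 : ((1 : Fˣ) : F) + (-s : Fˣ) = r := by
    push_cast
    linear_combination -e
  have h3 : Stb K r⁻¹ := (hK 1 (-s) r K.one_mem hns hr e1 (by simpa using hd.s1)).congr (by simp)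
  have h4 : Stb K (-s * r⁻¹) := hK (-s) 1 r hns K.one_mem hr (by rw [add_comm]; exact e1)
    (by simpa using hd.s1)
  have e2 : ((1 : Fˣ) : F) + (-r : Fˣ) = s := by
    push_cast
    linear_combination -e
  have h5 : Stb K s⁻¹ := (hK 1 (-r) s K.one_mem hnr hs e2 (by simpa using hd.r1)).congr (by simp)
  refine ⟨h1, h3, h2, h5, ((h4.mul h1).mul h5).congr ?_⟩
  rw [neg_mul, neg_mul, neg_mul]
  congr 1
  group

end

/-! ### partitions -/

/-- a partition of `F*/F*²` which respects sums -/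
structure Ptn (P : Set (Subgroup Fˣ)) : Prop where
  le : ∀ K ∈ P, sqG F ≤ K
  cover : ∀ x : Fˣ, ∃ K ∈ P, x ∈ K
  inf : ∀ K ∈ P, ∀ K' ∈ P, K ≠ K' → K ⊓ K' = sqG F
  sum : ∀ x v : Fˣ, x ∉ sqG F → -x ∉ sqG F → (v : F) = 1 + x → ∀ K ∈ P, x ∈ K → v ∈ K

section

variable {P : Set (Subgroup Fˣ)} (hP : Ptn P) (hε : (-1 : Fˣ) ∈ sqG F)
include hP

lemma uniq {K K' : Subgroup Fˣ} (hK : K ∈ P) (hK' : K' ∈ P) {x : Fˣ} (hx : x ∉ sqG F) (h : x ∈ K)
    (h' : x ∈ K') : K = K' := by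
  by_contra hne
  exact hx ((hP.inf K hK K' hK' hne).le ⟨h, h'⟩)

include hε

omit hP in
lemma neg_sqm {x : Fˣ} : -x ∈ sqG F ↔ x ∈ sqG F := by
  rw [← neg_one_mul]
  exact sqm_mul hε

lemma sum' {x v : Fˣ} (hx : x ∉ sqG F) (hv : (v : F) = 1 + x) {K : Subgroup Fˣ} (hK : K ∈ P)
    (hxK : x ∈ K) : v ∈ K :=
  hP.sum x v hx (fun h => hx ((neg_sqm hε).1 h)) hv K hK hxK

omit hP in
lemma ne_zero_of {x : Fˣ} (hx : x ∉ sqG F) : (1 : F) + x ≠ 0 := by
  intro h
  apply hx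
  have h1 : x = -1 := by
    ext
    rw [Units.val_neg, Units.val_one]
    linear_combination h
  rw [h1]
  exact hε

lemma negK {K : Subgroup Fˣ} (hK : K ∈ P) {x : Fˣ} : -x ∈ K ↔ x ∈ K := by
  rw [← neg_one_mul]
  exact K.mul_mem_cancel_left (hP.le K hK hε)

/-- a part is good -/
lemma gd {K : Subgroup Fˣ} (hK : K ∈ P) : Gd K := by
  intro x y z hx hy hz e hxy
  rw [neg_sqm hε] at hxy
  refine ⟨K.mul_mem hx (K.inv_mem hz), fun w hw hs => ?_⟩
  have hw1 : w * (x * z⁻¹) ∉ K := fun h =>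
    hw ((K.mul_mem_cancel_right (K.mul_mem hx (K.inv_mem hz))).1 h)
  have hw2 : w * (x * z⁻¹) ∉ sqG F := fun h => hw1 (hP.le K hK h)
  have hne := ne_zero_of hε hw2
  obtain ⟨K', hK', hwK'⟩ := hP.cover (w * (x * z⁻¹))
  obtain ⟨v, hv⟩ : ∃ v : Fˣ, (v : F) = 1 + (w * (x * z⁻¹) : Fˣ) := ⟨Units.mk0 _ hne, rfl⟩
  have hvK' : v ∈ K' := sum' hP hε hw2 hv hK' hwK'
  obtain ⟨t, ht, et⟩ := hs
  -- `z (1 + w x / z) = z + w x = x t + y`
  have hq : x * t * y⁻¹ ∉ sqG F := by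
    rw [inv_sqm, mul_assoc, mul_comm t y, ← mul_assoc, mul_sqm ht]
    exact hxy
  have hqne := ne_zero_of hε hq
  have hqK : x * t * y⁻¹ ∈ K := K.mul_mem (K.mul_mem hx (hP.le K hK ht)) (K.inv_mem hy)
  obtain ⟨q, hqF⟩ : ∃ q : Fˣ, (q : F) = 1 + (x * t * y⁻¹ : Fˣ) := ⟨Units.mk0 _ hqne, rfl⟩
  have hq' : q ∈ K := sum' hP hε hq hqF hK hqK
  have hvK : v ∈ K := by
    have e1 : v = q * y * z⁻¹ := by
      apply Units.ext
      rw [hv, Units.val_mul (q * y), Units.val_mul q, hqF]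
      simp only [Units.val_mul, Units.val_inv_eq_inv_val]
      rw [et]
      have hz0 : (z : F) ≠ 0 := z.ne_zero
      have hy0 : (y : F) ≠ 0 := y.ne_zero
      field_simp
      linear_combination -e
    rw [e1]
    exact K.mul_mem (K.mul_mem hq' hy) (K.inv_mem hz)
  have hKK : K ≠ K' := by
    rintro rfl
    exact hw1 hwK'
  exact ⟨v, (hP.inf K hK K' hK' hKK).le ⟨hvK, hvK'⟩, hv⟩

/-- `r` and `s` are in the same part -/
lemma dc_part {r s : Fˣ} (hd : Dc r s) {K : Subgroup Fˣ} (hK : K ∈ P) (hr : r ∈ K) : s ∈ K :=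
  sum' hP hε (x := -r) hd.r2 (by push_cast; linear_combination hd.sum) hK ((negK hP hε hK).2 hr)

omit hP in
lemma dc_of {r s : Fˣ} (e : (r : F) + s = 1) (h1 : r ∉ sqG F) (h2 : s ∉ sqG F)
    (h3 : r * s ∉ sqG F) : Dc r s :=
  ⟨e, h1, fun h => h1 ((neg_sqm hε).1 h), h2, fun h => h3 ((neg_sqm hε).1 h)⟩

lemma stb_all {r s : Fˣ} (hd : Dc r s) {K : Subgroup Fˣ} (hK : K ∈ P) (hr : r ∈ K) :
    Stb K r ∧ Stb K r⁻¹ ∧ Stb K s ∧ Stb K s⁻¹ ∧ Stb K (-1) :=
  stb_dc (gd hP hε hK) (hP.le K hK hε) hd hr (dc_part hP hε hd hK hr)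

variable (two : Fˣ) (htwo : (two : F) = 2)
include htwo

/-- `4 ρ` and `4 ρ⁻¹` are small -/
lemma four {r s ρ σ : Fˣ} (hd : Dc r s) (hd' : Dc ρ σ) {K K' : Subgroup Fˣ} (hK : K ∈ P)
    (hK' : K' ∈ P) (hr : r ∈ K) (hρ : ρ ∈ K') (hne : K ≠ K') :
    Smq (two ^ 2 * ρ) ∧ Smq (two ^ 2 * ρ⁻¹) := by
  obtain ⟨h1, h2, h3, h4, h5⟩ := stb_all hP hε hd hK hr
  obtain ⟨g1, g2, -, -, -⟩ := stb_all hP hε hd' hK' hρ
  have hs : s ∈ K := dc_part hP hε hd hK hr
  have hρK : ρ ∉ K := fun h => hne (uniq hP hK hK' hd'.r1 h hρ)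
  have hq0 : (1 : F) + r ≠ 0 := ne_zero_of hε hd.r1
  -- `W = 4 r / s ^ 2`
  obtain ⟨W, hW⟩ : ∃ W : Fˣ, W = two ^ 2 * r * (s⁻¹) ^ 2 := ⟨_, rfl⟩
  have hWs : Smq W := by
    refine ⟨(Units.mk0 _ hq0 * s⁻¹) ^ 2, sq_mem _, ?_⟩
    rw [hW]
    simp only [Units.val_pow_eq_pow_val, Units.val_mul, Units.val_mk0, Units.val_inv_eq_inv_val,
      htwo]
    have hs0 : (s : F) ≠ 0 := s.ne_zero
    field_simp
    have e : (s : F) = 1 - r := by linear_combination hd.sum
    rw [e]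
    ring
  have hWK' : W ∉ K' := by
    intro h
    have h6 : r ∈ K' := by
      have e : r = W * ((two⁻¹) ^ 2 * s ^ 2) := by
        rw [hW]
        apply Units.ext
        push_cast
        field_simp
      rw [e]
      exact K'.mul_mem h (hP.le K' hK' ((sqG F).mul_mem (sq_mem _) (sq_mem _)))
    exact hne (uniq hP hK hK' hd.r1 hr h6)
  have hWK : W ∈ K := by
    rw [hW]
    exact K.mul_mem (K.mul_mem (hP.le K hK (sq_mem _)) hr) (hP.le K hK (sq_mem _))
  have key : ∀ τ : Fˣ, τ ∉ K → Smq (W * τ) → Smq (two ^ 2 * τ) := by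
    intro τ hτ h
    have h6 : W * τ ∉ K := fun h7 => hτ ((K.mul_mem_cancel_left hWK).1 h7)
    have h7 := ((h2.mul h3).mul h3).2 _ h6 h
    have e : W * τ * (r⁻¹ * s * s) = two ^ 2 * τ := by
      rw [hW]
      apply Units.ext
      push_cast
      field_simp
    rwa [e] at h7
  refine ⟨key ρ hρK (g1.2 W hWK' hWs), key ρ⁻¹ (fun h => hρK ?_) (g2.2 W hWK' hWs)⟩
  exact (K.inv_mem_iff).1 h

omit hε htwo in
/-- if division by two preserves small elements there is a contradiction -/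
lemma contra {ρ : Fˣ} {L : Subgroup Fˣ} (hL : L ∈ P) (hρ : ρ ∉ L) (h1 : Smq (two ^ 2 * ρ))
    (h2 : Smq (two ^ 2 * ρ⁻¹)) (h3 : Stb L two⁻¹) : False := by
  have key : ∀ τ : Fˣ, τ ∉ L → Smq (two ^ 2 * τ) → Smq τ := by
    intro τ hτ h
    have h4 : two ^ 2 * τ ∉ L := fun h7 =>
      hτ ((L.mul_mem_cancel_left (hP.le L hL (sq_mem _))).1 h7)
    have h5 := (h3.mul h3).2 _ h4 h
    have e : two ^ 2 * τ * (two⁻¹ * two⁻¹) = τ := by
      apply Units.ext
      push_cast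
      field_simp
    rwa [e] at h5
  exact hρ (hP.le L hL (smq_inv (key ρ hρ h1)
    (key ρ⁻¹ (fun h => hρ ((L.inv_mem_iff).1 h)) h2)))

/-- non-rigid elements are in the same part -/
theorem one_part {r s ρ σ : Fˣ} (hd : Dc r s) (hd' : Dc ρ σ) {K K' : Subgroup Fˣ} (hK : K ∈ P)
    (hK' : K' ∈ P) (hr : r ∈ K) (hρ : ρ ∈ K') : K = K' := by
  by_contra hne
  obtain ⟨f1, f2⟩ := four hP hε two htwo hd hd' hK hK' hr hρ hne
  obtain ⟨f3, f4⟩ := four hP hε two htwo hd' hd hK' hK hρ hr (Ne.symm hne)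
  have hρK : ρ ∉ K := fun h => hne (uniq hP hK hK' hd'.r1 h hρ)
  have hrK' : r ∉ K' := fun h => hne (uniq hP hK hK' hd.r1 hr h)
  have no : ¬ Stb K two⁻¹ := contra hP two hK hρK f1 f2
  -- `(1 + r) (1 - r)` is a square
  have step2 : ∀ r s q : Fˣ, Dc r s → r ∈ K → (q : F) = 1 + r → q * s ∈ sqG F := by
    intro r s q hd hr hq
    by_contra hqs
    obtain ⟨-, -, -, h4, -⟩ := stb_all hP hε hd hK hr
    have hs : s ∈ K := dc_part hP hε hd hK hr
    have hqK : q ∈ K := sum' hP hε hd.r1 hq hK hr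
    have e : (s : F) + q = two := by
      rw [htwo, hq]
      linear_combination hd.sum
    have h2K : two ∈ K := by
      have hsq : s * q⁻¹ ∉ sqG F := by rw [inv_sqm, mul_comm]; exact hqs
      have hne0 := ne_zero_of hε hsq
      have h5 : Units.mk0 _ hne0 ∈ K :=
        sum' hP hε hsq rfl hK (K.mul_mem hs (K.inv_mem hqK))
      have e2 : two = Units.mk0 _ hne0 * q := by
        ext
        rw [Units.val_mul, Units.val_mk0, ← e, Units.val_mul, Units.val_inv_eq_inv_val]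
        have hq0 : (q : F) ≠ 0 := q.ne_zero
        field_simp
        ring
      rw [e2]
      exact K.mul_mem h5 hqK
    have h6 := gd hP hε hK s q two hs hqK h2K e (fun h => hqs (by
      rw [neg_sqm hε, mul_comm] at h; exact h))
    exact no ((h4.mul h6).congr (by group))
  -- square root of `-1`
  obtain ⟨ι, hι⟩ := mem_sqG.1 hε
  have hιF : (ι : F) ^ 2 = -1 := by
    have := congrArg (fun u : Fˣ => (u : F)) hι
    simpa using this.symm
  have hιS : ι ∈ sqG F := by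
    by_contra hιS
    obtain ⟨L, hL, hιL⟩ := hP.cover ι
    have hnιS : -ι ∉ sqG F := fun h => hιS ((neg_sqm hε).1 h)
    have hnιL : -ι ∈ L := (negK hP hε hL).2 hιL
    have hp0 := ne_zero_of hε hιS
    have hm0 := ne_zero_of hε hnιS
    have hpL : Units.mk0 _ hp0 ∈ L := sum' hP hε hιS rfl hL hιL
    have hmL : Units.mk0 _ hm0 ∈ L := sum' hP hε hnιS rfl hL hnιL
    have s1 := gd hP hε hL 1 ι (Units.mk0 _ hp0) L.one_mem hιL hpL (by simp)
      (by rw [one_mul]; exact hnιS)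
    have s2 := gd hP hε hL 1 (-ι) (Units.mk0 _ hm0) L.one_mem hnιL hmL (by simp)
      (by rw [one_mul, neg_neg]; exact hιS)
    have e : two = Units.mk0 _ hp0 * Units.mk0 _ hm0 := by
      ext
      rw [Units.val_mul, Units.val_mk0, Units.val_mk0, htwo, Units.val_neg]
      linear_combination hιF
    have s3 : Stb L two⁻¹ := (s1.mul s2).congr (by rw [e, one_mul, one_mul, mul_inv])
    by_cases hρL : ρ ∈ L
    · have hrL : r ∉ L := fun h => hrK' (by
        rw [uniq hP hK' hL hd'.r1 hρ hρL]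
        exact h)
      exact contra hP two hL hrL f3 f4 s3
    · exact contra hP two hL hρL f1 f2 s3
  have h2S : two ∈ sqG F := by
    have hne1 : (1 : F) + ι ≠ 0 := by
      intro h
      have h1 : (ι : F) = -1 := by linear_combination h
      rw [h1] at hιF
      have : (two : F) = 0 := by rw [htwo]; linear_combination hιF
      exact two.ne_zero this
    have e : two = Units.mk0 _ hne1 ^ 2 * ι⁻¹ := by
      ext
      rw [Units.val_mul, Units.val_pow_eq_pow_val, Units.val_mk0, Units.val_inv_eq_inv_val, htwo]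
      have hι0 : (ι : F) ≠ 0 := ι.ne_zero
      field_simp
      linear_combination -hιF
    rw [e]
    exact (sqG F).mul_mem (sq_mem _) ((sqG F).inv_mem hιS)
  have h2K : two ∈ K := hP.le K hK h2S
  -- `1 - 2 r` is a square
  have step4 : ∀ r s : Fˣ, Dc r s → r ∈ K → ∃ m ∈ sqG F, (m : F) = 1 - 2 * r := by
    intro r s hd hr
    have hs : s ∈ K := dc_part hP hε hd hK hr
    have hrs : r * s ∉ sqG F := fun h => hd.rs ((neg_sqm hε).2 h)
    have a1 : -(r * s⁻¹) ∉ sqG F := by rw [neg_sqm hε, inv_sqm]; exact hrs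
    have e1 : ((-(r * s⁻¹) : Fˣ) : F) + (s⁻¹ : Fˣ) = 1 := by
      rw [Units.val_neg, Units.val_mul, Units.val_inv_eq_inv_val]
      have hs0 : (s : F) ≠ 0 := s.ne_zero
      field_simp
      linear_combination -hd.sum
    have hd2 : Dc (-(r * s⁻¹)) s⁻¹ := by
      refine dc_of hε e1 a1 (fun h => hd.s1 ((sqG F).inv_mem_iff.1 h)) ?_
      rw [neg_mul, neg_sqm hε, mul_assoc, mul_sqm (sq_mem' _)]
      exact hd.r1
    have hq0 := ne_zero_of hε a1
    have h5 := step2 _ _ (Units.mk0 _ hq0) hd2 ((negK hP hε hK).2 (K.mul_mem hr (K.inv_mem hs))) rfl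
    refine ⟨Units.mk0 _ hq0 * s⁻¹ * s ^ 2, (mul_sqm (sq_mem _)).2 h5, ?_⟩
    rw [Units.val_mul, Units.val_mul, Units.val_mk0, Units.val_inv_eq_inv_val,
      Units.val_pow_eq_pow_val, Units.val_neg, Units.val_mul, Units.val_inv_eq_inv_val]
    have hs0 : (s : F) ≠ 0 := s.ne_zero
    field_simp
    linear_combination hd.sum
  -- `-r`
  have hq0 : (1 : F) + r ≠ 0 := ne_zero_of hε hd.r1
  have hqs := step2 r s (Units.mk0 _ hq0) hd hr rfl
  have hqS : Units.mk0 _ hq0 ∉ sqG F := fun h => hd.s1 ((sqm_mul h).1 hqs)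
  have hrs : r * s ∉ sqG F := fun h => hd.rs ((neg_sqm hε).2 h)
  have hdn : Dc (-r) (Units.mk0 _ hq0) := by
    refine dc_of hε (by simp) hd.r2 hqS ?_
    rw [neg_mul, neg_sqm hε]
    intro h
    apply hrs
    have e : r * s = r * Units.mk0 _ hq0 * (Units.mk0 _ hq0 * s) *
        (Units.mk0 _ hq0 * Units.mk0 _ hq0)⁻¹ := by
      generalize Units.mk0 _ hq0 = q
      apply Units.ext
      push_cast
      field_simp
    rw [e]
    exact (sqG F).mul_mem ((sqG F).mul_mem h hqs) ((sqG F).inv_mem (sq_mem' _))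
  obtain ⟨m, hm, hmF⟩ := step4 (-r) _ hdn ((negK hP hε hK).2 hr)
  obtain ⟨u, rfl⟩ := mem_sqG.1 hm
  have hu : (u : F) ^ 2 = 1 + 2 * r := by
    rw [← Units.val_pow_eq_pow_val, hmF, Units.val_neg]
    ring
  have hr0 : (r : F) ≠ 0 := r.ne_zero
  have h20 : (2 : F) ≠ 0 := by rw [← htwo]; exact two.ne_zero
  have hy0 : (u : F) - 1 ≠ 0 := by
    intro h
    have h1 : (u : F) = 1 := by linear_combination h
    rw [h1] at hu
    exact mul_ne_zero h20 hr0 (by linear_combination -hu)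
  have hy20 : (u : F) + 1 ≠ 0 := by
    intro h
    have h1 : (u : F) = -1 := by linear_combination h
    rw [h1] at hu
    exact mul_ne_zero h20 hr0 (by linear_combination -hu)
  obtain ⟨g1, g2, -, -, g5⟩ := stb_all hP hε hd hK hr
  -- case `Y` is a square
  have caseB : ∀ Y Z : Fˣ, (Z : F) = Y + 2 → (Y : F) * Z = 2 * r → Y ∈ sqG F → False := by
    intro Y Z h1 h2 hY
    obtain ⟨a, ha⟩ : ∃ a : Fˣ, a = Y * two⁻¹ := ⟨_, rfl⟩
    obtain ⟨b, hb⟩ : ∃ b : Fˣ, b = Z * two⁻¹ := ⟨_, rfl⟩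
    have haS : a ∈ sqG F := by rw [ha]; exact (sqG F).mul_mem hY ((sqG F).inv_mem h2S)
    have haF : (a : F) = Y / 2 := by
      rw [ha, Units.val_mul, Units.val_inv_eq_inv_val, htwo, div_eq_mul_inv]
    have hbF : (b : F) = Z / 2 := by
      rw [hb, Units.val_mul, Units.val_inv_eq_inv_val, htwo, div_eq_mul_inv]
    have hba : (b : F) = 1 + a := by
      rw [haF, hbF, h1]
      field_simp
      ring
    have hr' : r = two * a * b := by
      ext
      rw [Units.val_mul, Units.val_mul, htwo, haF, hbF]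
      field_simp
      linear_combination -h2
    have hbr : b = r * (two * a)⁻¹ := by
      rw [hr']
      apply Units.ext
      push_cast
      field_simp
    have h2a : (two * a)⁻¹ ∈ sqG F := (sqG F).inv_mem ((sqG F).mul_mem h2S haS)
    have hbS : b ∉ sqG F := by
      rw [hbr, mul_sqm h2a]
      exact hd.r1
    have hbK : b ∈ K := by
      rw [hbr]
      exact K.mul_mem hr (hP.le K hK h2a)
    have haK : a ∈ K := hP.le K hK haS
    have hab : -(-a * b) ∉ sqG F := by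
      rw [neg_mul, neg_neg, sqm_mul haS]
      exact hbS
    have s1 : Stb K (-a) := (gd hP hε hK (-a) b 1 ((negK hP hε hK).2 haK) hbK K.one_mem (by
      rw [Units.val_neg, Units.val_one, hba]; ring) hab).congr (by simp)
    have s2 : Stb K b := (gd hP hε hK b (-a) 1 hbK ((negK hP hε hK).2 haK) K.one_mem (by
      rw [Units.val_neg, Units.val_one, hba]; ring) (by rw [mul_comm b (-a)]; exact hab)).congr
        (by simp)
    refine no (((s1.mul g5).mul (s2.mul g2)).congr ?_)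
    rw [hr']
    apply Units.ext
    push_cast
    field_simp
  obtain ⟨y, hy⟩ : ∃ y : Fˣ, (y : F) = u - 1 := ⟨Units.mk0 _ hy0, rfl⟩
  obtain ⟨y2, hy2⟩ : ∃ y : Fˣ, (y : F) = u + 1 := ⟨Units.mk0 _ hy20, rfl⟩
  have hyy : y * y2 = two * r := by
    ext
    rw [Units.val_mul, Units.val_mul, hy, hy2, htwo]
    linear_combination hu
  have hyS : y ∉ sqG F := fun h => caseB y y2 (by rw [hy, hy2]; ring) (by
    have := congrArg (fun u : Fˣ => (u : F)) hyy
    simpa [htwo] using this) h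
  have hy2S : y2 ∉ sqG F := fun h => caseB (-y2) (-y) (by
    rw [Units.val_neg, Units.val_neg, hy, hy2]; ring) (by
    have := congrArg (fun u : Fˣ => (u : F)) hyy
    simp only [Units.val_mul, htwo] at this
    rw [Units.val_neg, Units.val_neg]
    linear_combination this) ((neg_sqm hε).2 h)
  -- the last case
  have caseA : ∀ Y Z : Fˣ, (Z : F) = Y + 2 → Y * Z = two * r → Y ∉ sqG F → Z ∉ sqG F →
      Stb K (two⁻¹ * Y) := by
    intro Y Z h1 h2 hY hZ
    obtain ⟨x, hx⟩ : ∃ x : Fˣ, x = two * Y⁻¹ := ⟨_, rfl⟩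
    have hxS : x ∉ sqG F := by
      rw [hx, sqm_mul h2S]
      exact fun h => hY ((sqG F).inv_mem_iff.1 h)
    have hx0 := ne_zero_of hε hxS
    have e1 : Units.mk0 _ hx0 = two * r * (Y⁻¹ * Y⁻¹) := by
      ext
      rw [← h2, Units.val_mk0, hx]
      simp only [Units.val_mul, Units.val_inv_eq_inv_val, htwo]
      rw [h1]
      have hY0 : (Y : F) ≠ 0 := Y.ne_zero
      field_simp
    have hqr : ∀ z : Fˣ, two * r * (Y⁻¹ * Y⁻¹) * z ∈ sqG F ↔ r * z ∈ sqG F := by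
      intro z
      have : two * r * (Y⁻¹ * Y⁻¹) * z = two * (r * z * (Y⁻¹ * Y⁻¹)) := by apply Units.ext; push_cast; field_simp
      rw [this, sqm_mul h2S, mul_sqm (sq_mem' _)]
    have hqS : Units.mk0 _ hx0 ∉ sqG F := by
      have := hqr 1
      rw [mul_one, mul_one] at this
      rw [e1, this]
      exact hd.r1
    have hqK : Units.mk0 _ hx0 ∈ K := by
      rw [e1]
      exact K.mul_mem (K.mul_mem h2K hr) (hP.le K hK (sq_mem' _))
    have hxK : x ∈ K := by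
      obtain ⟨X, hX, hxX⟩ := hP.cover x
      have h3 : Units.mk0 _ hx0 ∈ X := sum' hP hε hxS rfl hX hxX
      rw [uniq hP hK hX hqS hqK h3]
      exact hxX
    have hdx : Dc (-x) (Units.mk0 _ hx0) := by
      refine dc_of hε (by simp) (fun h => hxS ((neg_sqm hε).1 h)) hqS ?_
      rw [neg_mul, neg_sqm hε, mul_comm, e1, hqr, hx]
      intro h
      apply hZ
      have e2 : Z = r * (two * Y⁻¹) := by
        have : Z = Y⁻¹ * (Y * Z) := by group
        rw [this, h2]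
        apply Units.ext
        push_cast
        field_simp
      rw [e2]
      exact h
    have h3 := (stb_all hP hε hdx hK ((negK hP hε hK).2 hxK)).2.1
    refine (h3.mul g5).congr ?_
    rw [mul_neg_one, hx]
    have : (-(two * Y⁻¹))⁻¹ = -(two * Y⁻¹)⁻¹ := by
      rw [inv_neg]
    rw [this, neg_neg, mul_inv, inv_inv]
  have t1 := caseA y y2 (by rw [hy, hy2]; ring) hyy hyS hy2S
  have t2 := caseA (-y2) (-y) (by rw [Units.val_neg, Units.val_neg, hy, hy2]; ring)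
    (by rw [neg_mul_neg, mul_comm]; exact hyy) (fun h => hy2S ((neg_sqm hε).1 h))
    (fun h => hyS ((neg_sqm hε).1 h))
  refine no ((((t1.mul t2).mul g5).mul g2).congr ?_)
  have : two⁻¹ * y * (two⁻¹ * -y2) * -1 * r⁻¹ = two⁻¹ * two⁻¹ * (y * y2) * r⁻¹ := by
    apply Units.ext
    push_cast
    field_simp
  rw [this, hyy]
  apply Units.ext
  push_cast
  field_simp

end

end Pool.Agent.E8helper26.ETC
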