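import Mathlib
import Pool.Agent.E8helper26.ETC.Part

set_option autoImplicit false

/-! Rigid pairs `(F*², H)` for which a non-rigid element exists: there is no exception. -/

namespace Pool.Agent.E8helper26.ETC

open Pool.Agent.Y920.ETC

variable {F : Type} [Field F] {H : Subgroup Fˣ}

section

variable (hR : RigidPair (sqG F) H)
include hR

/-- rigidity for elements which are determined by their values -/
lemma rig {x v : Fˣ} (hx : x ∉ H) (hv : (v : F) = 1 + x) : v ∈ sqG F ∨ x * v ∈ sqG F := by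
  rcases hR.rigid x hx with ⟨t, ht, e⟩ | ⟨t, ht, e⟩
  · left
    have : v = t := by ext; rw [hv, e]
    rw [this]; exact ht
  · right
    have : x * v = x * x * t := by
      ext
      rw [Units.val_mul, hv, ← e, Units.val_mul, Units.val_mul, Units.val_mul]
      ring
    rw [this]
    exact (mul_sqm ht).2 (sq_mem' x)

lemma rig_neg {x : Fˣ} : -x ∈ H ↔ x ∈ H := by
  rw [← neg_one_mul]
  exact H.mul_mem_cancel_left hR.neg

lemma rig_dc {r s : Fˣ} (hd : Dc r s) : r ∈ H ∧ s ∈ H := by
  constructor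
  · by_contra hr
    rcases rig hR (x := -r) (v := s) (fun h => hr ((rig_neg hR).1 h))
      (by push_cast; linear_combination hd.sum) with h | h
    · exact hd.s1 h
    · exact hd.rs (by rwa [neg_mul] at h)
  · by_contra hs
    rcases rig hR (x := -s) (v := r) (fun h => hs ((rig_neg hR).1 h))
      (by push_cast; linear_combination hd.sum) with h | h
    · exact hd.r1 h
    · exact hd.rs (by rwa [neg_mul, mul_comm] at h)

lemma rig_gd : Gd H := by
  intro x y z hx hy hz e hxy
  have hg : x * z⁻¹ ∈ H := H.mul_mem hx (H.inv_mem hz)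
  refine ⟨hg, fun w hw hs => ?_⟩
  have hw1 : w * (x * z⁻¹) ∉ H := fun h => hw ((H.mul_mem_cancel_right hg).1 h)
  rcases hR.rigid _ hw1 with ⟨t, ht, et⟩ | ⟨t, ht, et⟩
  · exact ⟨t, ht, et⟩
  exfalso
  obtain ⟨c, hc, ec⟩ := hs
  -- `-(y/x) = c - w t`
  have hz0 : (z : F) ≠ 0 := z.ne_zero
  have hx0 : (x : F) ≠ 0 := x.ne_zero
  have hc0 : (c : F) ≠ 0 := c.ne_zero
  have e1 : ((-(y * x⁻¹) * c⁻¹ : Fˣ) : F) = 1 + (-(w * t * c⁻¹) : Fˣ) := by
    simp only [Units.val_mul, Units.val_neg, Units.val_inv_eq_inv_val] at et ⊢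
    field_simp at et ⊢
    linear_combination et - e - x * ec
  have hn : -(w * t * c⁻¹) ∉ H := by
    rw [rig_neg hR, mul_assoc,
      H.mul_mem_cancel_right (H.mul_mem (hR.le ht) (H.inv_mem (hR.le hc)))]
    exact hw
  rcases rig hR hn e1 with h | h
  · apply hxy
    have e2 : -(x * y) = -(y * x⁻¹) * c⁻¹ * (x * x * c) := by apply Units.ext; push_cast; field_simp
    rw [e2]
    exact (sqG F).mul_mem h ((sqG F).mul_mem (sq_mem' x) hc)
  · have h3 := hR.le h
    have h4 : -(y * x⁻¹) * c⁻¹ ∈ H :=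
      H.mul_mem ((rig_neg hR).2 (H.mul_mem hy (H.inv_mem hx))) (H.inv_mem (hR.le hc))
    exact hn ((H.mul_mem_cancel_right h4).1 h3)

variable {r s : Fˣ} (hd : Dc r s)
include hd

lemma rig_stb : Stb H r ∧ Stb H r⁻¹ ∧ Stb H s ∧ Stb H s⁻¹ ∧ Stb H (-1) :=
  stb_dc (rig_gd hR) hR.neg hd (rig_dc hR hd).1 (rig_dc hR hd).2

/-- comparability, first step -/
lemma rig_cmp0 {h : Fˣ} (hh : h ∈ H) (h1 : h ∉ sqG F) (h2 : -h ∉ sqG F) : Stb H h ∨ Stb H h⁻¹ := by
  obtain ⟨-, -, -, -, hneg⟩ := rig_stb hR hd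
  have hne : (1 : F) + h ≠ 0 := by
    intro h3
    apply h2
    have : -h = 1 := by
      ext
      rw [Units.val_neg, Units.val_one]
      linear_combination -h3
    rw [this]
    exact one_mem _
  obtain ⟨v, hv⟩ : ∃ v : Fˣ, (v : F) = 1 + h := ⟨Units.mk0 _ hne, rfl⟩
  have hvH : v ∈ H := by
    by_contra hvH
    have e : ((-h : Fˣ) : F) = 1 + (-v : Fˣ) := by push_cast; linear_combination hv
    rcases rig hR (x := -v) (fun h3 => hvH ((rig_neg hR).1 h3)) e with h3 | h3
    · exact h2 h3
    · rw [neg_mul_neg] at h3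
      exact hvH ((H.mul_mem_cancel_right hh).1 (hR.le h3))
  by_cases hs1 : v ∈ sqG F
  · left
    have h4 := rig_gd hR (-h) v 1 ((rig_neg hR).2 hh) hvH H.one_mem
      (by push_cast; linear_combination hv)
      (by rw [neg_mul, neg_neg, mul_sqm hs1]; exact h1)
    exact (h4.mul hneg).congr (by simp)
  by_cases hs2 : h * v ∈ sqG F
  · right
    have h4 := rig_gd hR (-h⁻¹) (v * h⁻¹) 1 ((rig_neg hR).2 (H.inv_mem hh))
      (H.mul_mem hvH (H.inv_mem hh)) H.one_mem
      (by
        simp only [Units.val_neg, Units.val_mul, Units.val_inv_eq_inv_val, Units.val_one]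
        rw [hv]
        have := h.ne_zero
        field_simp
        ring)
      (by
        intro h5
        apply h1
        have e : h = -(-h⁻¹ * (v * h⁻¹)) * (h * v)⁻¹ * ((h * h) ^ 2) := by apply Units.ext; push_cast; field_simp
        rw [e]
        exact (sqG F).mul_mem ((sqG F).mul_mem h5 ((sqG F).inv_mem hs2)) (sq_mem _))
    exact (h4.mul hneg).congr (by simp)
  · left
    have h3 : Dc (-h) v := ⟨by push_cast; linear_combination hv, h2, by rwa [neg_neg], hs1,
      by rwa [neg_mul, neg_neg]⟩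
    obtain ⟨h4, -⟩ := rig_stb hR h3
    exact (h4.mul hneg).congr (by simp)

/-- comparability -/
lemma rig_cmp {h : Fˣ} (hh : h ∈ H) : Stb H h ∨ Stb H h⁻¹ := by
  by_cases h1 : h ∈ sqG F ∨ -h ∈ sqG F
  · obtain ⟨hr, hr', -, -, -⟩ := rig_stb hR hd
    have h3 : h * r ∉ sqG F := by
      intro h4
      rcases h1 with h1 | h1
      · exact hd.r1 ((sqm_mul h1).1 h4)
      · have : -h * -r ∈ sqG F := by rwa [neg_mul_neg]
        exact hd.r2 ((sqm_mul h1).1 this)
    have h3' : -(h * r) ∉ sqG F := by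
      intro h4
      rcases h1 with h1 | h1
      · rw [← mul_neg] at h4
        exact hd.r2 ((sqm_mul h1).1 h4)
      · rw [← neg_mul] at h4
        exact hd.r1 ((sqm_mul h1).1 h4)
    rcases rig_cmp0 hR hd (H.mul_mem hh (rig_dc hR hd).1) h3 h3' with h5 | h5
    · left
      exact (h5.mul hr').congr (by simp)
    · right
      exact (h5.mul hr).congr (by simp)
  · push Not at h1
    exact rig_cmp0 hR hd hh h1.1 h1.2

/-- no exception -/
theorem rig_pcd : PCD (sqG F) H := by
  obtain ⟨hr, hr', -, -, -⟩ := rig_stb hR hd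
  refine ⟨?_, ?_, ?_⟩
  · intro x y z hx hy hz1 hz
    have hne : x * y * z ∉ H := fun h => hz.1 ((H.mul_mem_cancel_left hz1).1 h)
    refine ⟨hne, ?_⟩
    rcases rig_cmp hR hd hz1 with h | h
    · have := h.2 z hz.1 hz.2
      rwa [mul_comm z] at this
    · exfalso
      have h3 := h.2 x hx.1 hx.2
      have e : x * (x * y)⁻¹ = y⁻¹ := by apply Units.ext; push_cast; field_simp
      rw [e] at h3
      exact hy.1 (hR.le (smq_inv hy.2 h3))
  · intro a x c ha hx hc
    obtain ⟨c', hc', ec⟩ := hx.2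
    have hcc : c' = c := by ext; rw [ec, hc]
    rw [hcc] at hc'
    have hac : a * c ∉ H := fun h => ha.1 ((H.mul_mem_cancel_right (hR.le hc')).1 h)
    refine ⟨hac, ?_⟩
    have key : ∀ a : Fˣ, a ∉ H → Smq a → -(a * x) ∉ sqG F → Smq (a * c) := by
      intro a ha1 ha2 hax
      have hac : a * c ∉ H := fun h => ha1 ((H.mul_mem_cancel_right (hR.le hc')).1 h)
      rcases hR.rigid _ hac with h | ⟨t, ht, et⟩
      · exact h
      exfalso
      obtain ⟨α, hα, eα⟩ := ha2
      -- `α = a (c t - x)`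
      have ha0 : (a : F) ≠ 0 := a.ne_zero
      have hc0 : (c : F) ≠ 0 := c.ne_zero
      have ht0 : (t : F) ≠ 0 := t.ne_zero
      have e1 : ((α * (a * c * t)⁻¹ : Fˣ) : F) = 1 + (-(x * (c * t)⁻¹) : Fˣ) := by
        simp only [Units.val_mul, Units.val_neg, Units.val_inv_eq_inv_val] at et ⊢
        field_simp
        rw [eα]
        linear_combination -et - a * hc
      have hn : -(x * (c * t)⁻¹) ∉ H := by
        rw [rig_neg hR, H.mul_mem_cancel_right (H.inv_mem (H.mul_mem (hR.le hc') (hR.le ht)))]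
        exact hx.1
      rcases rig hR hn e1 with h | h
      · apply ha1
        apply hR.le
        have e2 : a = (α * (a * c * t)⁻¹)⁻¹ * (α * (c * t)⁻¹) := by apply Units.ext; push_cast; field_simp
        rw [e2]
        exact (sqG F).mul_mem ((sqG F).inv_mem h)
          ((sqG F).mul_mem hα ((sqG F).inv_mem ((sqG F).mul_mem hc' ht)))
      · apply hax
        have e2 : -(a * x) = -(x * (c * t)⁻¹) * (α * (a * c * t)⁻¹) * (α⁻¹ * (a * c * t) ^ 2) := by
          apply Units.ext
          push_cast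
          field_simp
        rw [e2]
        exact (sqG F).mul_mem h ((sqG F).mul_mem ((sqG F).inv_mem hα) (sq_mem _))
    by_cases hax : -(a * x) ∈ sqG F
    · have h3 := hr.2 a ha.1 ha.2
      have h4 : a * r ∉ H := fun h => ha.1 ((H.mul_mem_cancel_right hr.1).1 h)
      have h5 := key (a * r) h4 h3 (by
        intro h6
        apply hd.r1
        have e : r = -(a * r * x) * (-(a * x))⁻¹ := by apply Units.ext; push_cast; field_simp
        rw [e]
        exact (sqG F).mul_mem h6 ((sqG F).inv_mem hax))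
      have h6 : a * r * c ∉ H := fun h => h4 ((H.mul_mem_cancel_right (hR.le hc')).1 h)
      have h7 := hr'.2 _ h6 h5
      have e : a * r * c * r⁻¹ = a * c := by apply Units.ext; push_cast; field_simp
      rwa [e] at h7
    · exact key a ha.1 ha.2 hax
  · intro x a b hx ha hb hab
    obtain ⟨c, hc, ec⟩ := hx.2
    have hcab : c = a * b := by ext; rw [ec, hab, Units.val_mul]
    have key : ∀ w : Fˣ, w ∉ H → Smq w → w * x ∉ sqG F → Smq (w * c⁻¹) := by
      intro w hw1 hw2 hwx
      have hwc : w * c⁻¹ ∉ H := fun h =>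
        hw1 ((H.mul_mem_cancel_right (H.inv_mem (hR.le hc))).1 h)
      rcases hR.rigid _ hwc with h | ⟨t, ht, et⟩
      · exact h
      exfalso
      obtain ⟨ω, hω, eω⟩ := hw2
      have hc0 : (c : F) ≠ 0 := c.ne_zero
      have hω0 : (ω : F) ≠ 0 := ω.ne_zero
      -- `w t = ω + x`
      have e1 : ((w * t * ω⁻¹ : Fˣ) : F) = 1 + (x * ω⁻¹ : Fˣ) := by
        simp only [Units.val_mul, Units.val_inv_eq_inv_val] at et ⊢
        field_simp at et ⊢
        linear_combination et + ec - eω
      have hn : x * ω⁻¹ ∉ H := fun h =>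
        hx.1 ((H.mul_mem_cancel_right (H.inv_mem (hR.le hω))).1 h)
      rcases rig hR hn e1 with h | h
      · apply hw1
        apply hR.le
        have e2 : w = w * t * ω⁻¹ * (t⁻¹ * ω) := by apply Units.ext; push_cast; field_simp
        rw [e2]
        exact (sqG F).mul_mem h ((sqG F).mul_mem ((sqG F).inv_mem ht) hω)
      · apply hwx
        have e2 : w * x = x * ω⁻¹ * (w * t * ω⁻¹) * (t⁻¹ * ω ^ 2) := by apply Units.ext; push_cast; field_simp
        rw [e2]
        exact (sqG F).mul_mem h ((sqG F).mul_mem ((sqG F).inv_mem ht) (sq_mem _))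
    have h3 : Smq (b * c⁻¹) := by
      by_cases hbx : b * x ∈ sqG F
      · have h4 : b * r ∉ H := fun h => hb.1 ((H.mul_mem_cancel_right hr.1).1 h)
        have h5 := key (b * r) h4 (hr.2 b hb.1 hb.2) (by
          intro h6
          apply hd.r1
          have e : r = b * r * x * (b * x)⁻¹ := by apply Units.ext; push_cast; field_simp
          rw [e]
          exact (sqG F).mul_mem h6 ((sqG F).inv_mem hbx))
        have h6 : b * r * c⁻¹ ∉ H := fun h =>
          h4 ((H.mul_mem_cancel_right (H.inv_mem (hR.le hc))).1 h)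
        have h7 := hr'.2 _ h6 h5
        have e : b * r * c⁻¹ * r⁻¹ = b * c⁻¹ := by apply Units.ext; push_cast; field_simp
        rwa [e] at h7
      · exact key b hb.1 hb.2 hbx
    have e : b * c⁻¹ = a⁻¹ := by rw [hcab]; apply Units.ext; push_cast; field_simp
    rw [e] at h3
    exact ha.1 (hR.le (smq_inv ha.2 h3))

end

end Pool.Agent.E8helper26.ETC
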