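import Mathlib
import Pool.Agent.E8helper26.ETC.Rig

set_option autoImplicit false

/-! From partitions of `F*/F*²` to valuation rings and back. -/

namespace Pool.Agent.E8helper26.ETC

open Pool.Agent.Y920.ETC

variable {F : Type} [Field F]

/-- rigid pairs without exceptions give valuation rings -/
theorem val_of_pcd (h2 : (2 : F) ≠ 0) {H : Subgroup Fˣ} (hR : RigidPair (sqG F) H)
    (hP : PCD (sqG F) H) : ∃ O : ValuationSubring F, Sqr O ∧ O.unitGroup ≤ H := by
  obtain ⟨O, hO⟩ := Pool.Agent.Y447.ET.t_WB F _ _ hR hP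
  have hT : ∀ x : Fˣ, x ∈ sqG F ↔ ∃ y : Fˣ, x = y * y := by
    intro x
    rw [mem_sqG]
    constructor
    · rintro ⟨y, rfl⟩; exact ⟨y, pow_two y⟩
    · rintro ⟨y, rfl⟩; exact ⟨y, (pow_two y).symm⟩
  obtain ⟨O', hOO', h2O', hO'⟩ := Pool.Agent.Y67.ET.t_COARSE F h2 _ _ hT hR.le O hO
  refine ⟨O', ⟨h2O', h2, ?_⟩, ?_⟩
  · intro x hx hx'
    obtain ⟨t, ht, hte⟩ := hO'.one x hx hx'
    obtain ⟨y, rfl⟩ := (hT t).1 ht
    exact ⟨y, by rw [← hte, Units.val_mul]⟩
  · intro u hu
    refine hO'.units u ?_ ?_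
    · exact (O'.valuation_le_one_iff _).1 ((ValuationSubring.mem_unitGroup_iff _ _).1 hu).le
    · refine (O'.valuation_le_one_iff _).1 ?_
      rw [Units.val_inv_eq_inv_val, map_inv₀, (ValuationSubring.mem_unitGroup_iff _ _).1 hu,
        inv_one]

/-- the squares and their negatives -/
def pmG (F : Type) [Field F] : Subgroup Fˣ where
  carrier := {x | x ∈ sqG F ∨ -x ∈ sqG F}
  one_mem' := Or.inl (one_mem _)
  mul_mem' := by
    rintro a b (ha | ha) (hb | hb)
    · exact Or.inl ((sqG F).mul_mem ha hb)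
    · right; rw [← mul_neg]; exact (sqG F).mul_mem ha hb
    · right; rw [← neg_mul]; exact (sqG F).mul_mem ha hb
    · left; rw [← neg_mul_neg]; exact (sqG F).mul_mem ha hb
  inv_mem' := by
    rintro a (ha | ha)
    · exact Or.inl ((sqG F).inv_mem ha)
    · right
      have e : -a⁻¹ = (-a)⁻¹ := by rw [inv_neg]
      rw [e]
      exact (sqG F).inv_mem ha

lemma mem_pmG {x : Fˣ} : x ∈ pmG F ↔ x ∈ sqG F ∨ -x ∈ sqG F := Iff.rfl

/-- without non-rigid elements, everything is rigid -/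
lemma rig_of_not_dc (h : ¬ ∃ r s : Fˣ, Dc r s) : RigidPair (sqG F) (pmG F) := by
  refine ⟨sq_mem', fun x hx => Or.inl hx, Or.inr (by rw [neg_neg]; exact one_mem _), ?_⟩
  intro x hx
  rw [mem_pmG] at hx
  push Not at hx
  have hne : (1 : F) + x ≠ 0 := by
    intro h3
    apply hx.2
    have : -x = 1 := by
      ext
      rw [Units.val_neg, Units.val_one]
      linear_combination -h3
    rw [this]
    exact one_mem _
  obtain ⟨v, hv⟩ : ∃ v : Fˣ, (v : F) = 1 + x := ⟨Units.mk0 _ hne, rfl⟩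
  by_contra hcon
  push Not at hcon
  apply h
  refine ⟨-x, v, by push_cast; linear_combination hv, hx.2, by rw [neg_neg]; exact hx.1,
    fun h3 => hcon.1 v h3 hv, fun h3 => ?_⟩
  rw [neg_mul, neg_neg] at h3
  refine hcon.2 (x * v * (x⁻¹ * x⁻¹)) ((mul_sqm (sq_mem' _)).2 h3) ?_
  rw [← hv]
  congr 1
  apply Units.ext
  push_cast
  field_simp

section

variable {P : Set (Subgroup Fˣ)} (hP : Ptn P)
include hP

/-- the part of a non-rigid element, `-1 ∈ F*²` -/
lemma rig_of_dc_one (h2 : (2 : F) ≠ 0) (hε : (-1 : Fˣ) ∈ sqG F) {r s : Fˣ} (hd : Dc r s)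
    {K : Subgroup Fˣ} (hK : K ∈ P) (hr : r ∈ K) : RigidPair (sqG F) K := by
  refine ⟨sq_mem', hP.le K hK, hP.le K hK hε, ?_⟩
  intro x hx
  have hxS : x ∉ sqG F := fun h => hx (hP.le K hK h)
  have hne := ne_zero_of hε hxS
  obtain ⟨v, hv⟩ : ∃ v : Fˣ, (v : F) = 1 + x := ⟨Units.mk0 _ hne, rfl⟩
  by_contra hcon
  push Not at hcon
  have hd' : Dc (-x) v := by
    refine ⟨by push_cast; linear_combination hv, fun h => hxS ((neg_sqm hε).1 h),
      by rw [neg_neg]; exact hxS, fun h3 => hcon.1 v h3 hv, fun h3 => ?_⟩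
    rw [neg_mul, neg_neg] at h3
    refine hcon.2 (x * v * (x⁻¹ * x⁻¹)) ((mul_sqm (sq_mem' _)).2 h3) ?_
    rw [← hv]
    congr 1
    apply Units.ext
    push_cast
    field_simp
  obtain ⟨K', hK', hxK'⟩ := hP.cover (-x)
  have := one_part hP hε (Units.mk0 2 h2) rfl hd hd' hK hK' hr hxK'
  rw [← this] at hxK'
  exact hx ((negK hP hε hK).1 hxK')

/-- the part of `-1`, `-1 ∉ F*²` -/
lemma rig_of_neg (hε : (-1 : Fˣ) ∉ sqG F) {K : Subgroup Fˣ} (hK : K ∈ P) (hneg : (-1 : Fˣ) ∈ K) :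
    RigidPair (sqG F) K := by
  refine ⟨sq_mem', hP.le K hK, hneg, ?_⟩
  intro x hx
  have hnK : ∀ y : Fˣ, -y ∈ K ↔ y ∈ K := fun y => by
    rw [← neg_one_mul]; exact K.mul_mem_cancel_left hneg
  have hxS : x ∉ sqG F := fun h => hx (hP.le K hK h)
  have hxS' : -x ∉ sqG F := fun h => hx ((hnK x).1 (hP.le K hK h))
  have hne : (1 : F) + x ≠ 0 := by
    intro h3
    apply hxS'
    have : -x = 1 := by
      ext
      rw [Units.val_neg, Units.val_one]
      linear_combination -h3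
    rw [this]
    exact one_mem _
  obtain ⟨v, hv⟩ : ∃ v : Fˣ, (v : F) = 1 + x := ⟨Units.mk0 _ hne, rfl⟩
  obtain ⟨X, hX, hxX⟩ := hP.cover x
  have hXK : X ≠ K := by rintro rfl; exact hx hxX
  have hvX : v ∈ X := hP.sum x v hxS hxS' hv X hX hxX
  by_cases hvS : v ∈ sqG F
  · exact Or.inl ⟨v, hvS, hv⟩
  have hvS' : -v ∉ sqG F := by
    intro h
    apply hvS
    have h1 : v ∈ K := (hnK v).1 (hP.le K hK h)
    exact (hP.inf X hX K hK hXK).le ⟨hvX, h1⟩
  obtain ⟨Y, hY, hvY⟩ := hP.cover (-v)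
  have hxY : -x ∈ Y := hP.sum (-v) (-x) hvS' (by rwa [neg_neg]) (by
    push_cast; linear_combination hv) Y hY hvY
  have hXY : X ≠ Y := by
    rintro rfl
    have h1 : (-1 : Fˣ) ∈ X := by
      have h3 := X.mul_mem hxY (X.inv_mem hxX)
      rwa [neg_mul, mul_inv_cancel] at h3
    exact hε ((hP.inf X hX K hK hXK).le ⟨h1, hneg⟩)
  have h3 : v * x⁻¹ ∈ sqG F := by
    refine (hP.inf X hX Y hY hXY).le ⟨X.mul_mem hvX (X.inv_mem hxX), ?_⟩
    have h4 := Y.mul_mem hvY (Y.inv_mem hxY)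
    rwa [inv_neg, neg_mul_neg] at h4
  right
  refine ⟨v * x⁻¹, h3, ?_⟩
  rw [← hv]
  congr 1
  apply Units.ext
  push_cast
  field_simp

/-- partitions give valuation rings -/
theorem val_of_part (h2 : (2 : F) ≠ 0) (hne : ∀ K ∈ P, K ≠ ⊤)
    (hidx : (-1 : Fˣ) ∉ sqG F → (sqG F).index ≠ 4) :
    ∃ (O : ValuationSubring F) (H : Subgroup Fˣ), Sqr O ∧ O.unitGroup ≤ H ∧ sqG F ≤ H ∧ H ≠ ⊤ ∧
      (H ∈ P ∨ ((-1 : Fˣ) ∈ sqG F → ∀ u ∈ H, u ∉ sqG F → ∀ y ∈ H, y ∈ sqG F ∨ u * y ∈ sqG F)) := by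
  by_cases hex : ∃ r s : Fˣ, Dc r s
  · obtain ⟨r, s, hd⟩ := hex
    obtain ⟨K, hK, hR⟩ : ∃ K ∈ P, RigidPair (sqG F) K := by
      by_cases hε : (-1 : Fˣ) ∈ sqG F
      · obtain ⟨K, hK, hrK⟩ := hP.cover r
        exact ⟨K, hK, rig_of_dc_one hP h2 hε hd hK hrK⟩
      · obtain ⟨K, hK, hrK⟩ := hP.cover (-1)
        exact ⟨K, hK, rig_of_neg hP hε hK hrK⟩
    obtain ⟨O, hO, hOK⟩ := val_of_pcd h2 hR (rig_pcd hR hd)
    exact ⟨O, K, hO, hOK, hP.le K hK, hne K hK, Or.inl hK⟩
  · obtain ⟨z, H', hH', hR', hP'⟩ := Pool.Agent.Y925.ET.t_WA F _ _ (rig_of_not_dc hex)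
    obtain ⟨O, hO, hOH⟩ := val_of_pcd h2 hR' hP'
    refine ⟨O, H', hO, hOH, hR'.le, ?_, ?_⟩
    · rintro rfl
      have hz : ∀ y : Fˣ, y ∈ pmG F ∨ y * z ∈ pmG F := fun y => (hH' y).1 trivial
      by_cases hε : (-1 : Fˣ) ∈ sqG F
      · obtain ⟨K, hK, hzK⟩ := hP.cover z
        have hB : ∀ y : Fˣ, y ∈ pmG F → y ∈ K := by
          rintro y (hy | hy)
          · exact hP.le K hK hy
          · exact hP.le K hK ((neg_sqm hε).1 hy)
        refine hne K hK (eq_top_iff.2 fun y _ => ?_)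
        rcases hz y with h | h
        · exact hB y h
        · exact (K.mul_mem_cancel_right hzK).1 (hB _ h)
      · apply hidx hε
        obtain ⟨K, hK, hnK⟩ := hP.cover (-1)
        have hB : ∀ y : Fˣ, y ∈ pmG F → y ∈ K := by
          rintro y (hy | hy)
          · exact hP.le K hK hy
          · have := K.mul_mem hnK (hP.le K hK hy)
            rwa [neg_one_mul, neg_neg] at this
        have hzB : z ∉ pmG F := by
          intro h
          refine hne K hK (eq_top_iff.2 fun y _ => ?_)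
          rcases hz y with h1 | h1
          · exact hB y h1
          · exact hB y (((pmG F).mul_mem_cancel_right h).1 h1)
        have hi2 : (pmG F).index = 2 := by
          rw [Subgroup.index_eq_two_iff]
          refine ⟨z, fun y => ?_⟩
          rcases hz y with h1 | h1
          · exact Or.inr ⟨h1, fun h3 => hzB (((pmG F).mul_mem_cancel_left h1).1 h3)⟩
          · exact Or.inl ⟨h1, fun h3 => hzB (((pmG F).mul_mem_cancel_left h3).1 h1)⟩
        have hr2 : (sqG F).relIndex (pmG F) = 2 := by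
          rw [Subgroup.relIndex, Subgroup.index_eq_two_iff]
          refine ⟨⟨-1, Or.inr (by rw [neg_neg]; exact one_mem _)⟩, fun y => ?_⟩
          rw [Subgroup.mem_subgroupOf, Subgroup.mem_subgroupOf, Subgroup.coe_mul]
          rcases y with ⟨y, hy⟩
          simp only [mul_neg, mul_one]
          rcases hy with h1 | h1
          · refine Or.inr ⟨h1, fun h3 => hε ?_⟩
            have e : (-1 : Fˣ) = -y * y⁻¹ := by apply Units.ext; push_cast; field_simp
            rw [e]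
            exact (sqG F).mul_mem h3 ((sqG F).inv_mem h1)
          · refine Or.inl ⟨h1, fun h3 => hε ?_⟩
            have e : (-1 : Fˣ) = -y * y⁻¹ := by apply Units.ext; push_cast; field_simp
            rw [e]
            exact (sqG F).mul_mem h1 ((sqG F).inv_mem h3)
        have h3 : sqG F ≤ pmG F := fun x hx => Or.inl hx
        rw [← Subgroup.relIndex_mul_index h3, hi2, hr2]
    · right
      intro hε u hu hus y hy
      have hB : ∀ y : Fˣ, y ∈ pmG F ↔ y ∈ sqG F := by
        intro y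
        rw [mem_pmG, neg_sqm hε, or_self_iff]
      rw [hH', hB, hB] at hu hy
      rcases hy with hy | hy
      · exact Or.inl hy
      right
      rcases hu with hu | hu
      · exact absurd hu hus
      have e : u * y = u * z * (y * z) * (z⁻¹ * z⁻¹) := by apply Units.ext; push_cast; field_simp
      rw [e, mul_sqm (sq_mem' _)]
      exact (sqG F).mul_mem hu hy

end

/-! ### from valuation rings to partitions -/

/-- the classes of `1` and `x` -/
def twoG (x : Fˣ) : Subgroup Fˣ where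
  carrier := {y | y ∈ sqG F ∨ x * y ∈ sqG F}
  one_mem' := Or.inl (one_mem _)
  mul_mem' := by
    rintro a b (ha | ha) (hb | hb)
    · exact Or.inl ((sqG F).mul_mem ha hb)
    · right
      have e : x * (a * b) = x * b * a := by apply Units.ext; push_cast; field_simp
      rw [e]
      exact (sqG F).mul_mem hb ha
    · right
      rw [← mul_assoc]
      exact (sqG F).mul_mem ha hb
    · left
      have e : a * b = x * a * (x * b) * (x⁻¹ * x⁻¹) := by apply Units.ext; push_cast; field_simp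
      rw [e, mul_sqm (sq_mem' _)]
      exact (sqG F).mul_mem ha hb
  inv_mem' := by
    rintro a (ha | ha)
    · exact Or.inl ((sqG F).inv_mem ha)
    · right
      have e : x * a⁻¹ = x * a * (a⁻¹ * a⁻¹) := by apply Units.ext; push_cast; field_simp
      rw [e, mul_sqm (sq_mem' _)]
      exact ha

lemma mem_twoG {x y : Fˣ} : y ∈ twoG x ↔ y ∈ sqG F ∨ x * y ∈ sqG F := Iff.rfl

lemma val_eq_one_of {O : ValuationSubring F} {v : Fˣ} (h1 : (v : F) ∈ O) (h2 : (v : F)⁻¹ ∈ O) :
    v ∈ O.unitGroup := by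
  rw [ValuationSubring.mem_unitGroup_iff]
  refine le_antisymm ((ValuationSubring.valuation_le_one_iff _ _).2 h1) ?_
  have h9 := (ValuationSubring.valuation_le_one_iff O _).2 h2
  rw [map_inv₀] at h9
  have h10 : O.valuation (v : F) ≠ 0 := by
    rw [Valuation.ne_zero_iff]
    exact Units.ne_zero _
  exact (inv_le_one₀ (zero_lt_iff.2 h10)).1 h9

lemma smq_of_sq {w : Fˣ} (hs : IsSquare ((1 : F) + w)) (h0 : (1 : F) + w ≠ 0) :
    Smq w := by
  obtain ⟨y, hy⟩ := hs
  have hy0 : y ≠ 0 := by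
    rintro rfl
    exact h0 (by rw [hy]; ring)
  exact ⟨Units.mk0 y hy0 * Units.mk0 y hy0, sq_mem' _, by rw [Units.val_mul, Units.val_mk0, hy]⟩

/-- `x` is in the maximal ideal -/
lemma smq_of_max {O : ValuationSubring F} (hO : Sqr O) {w : Fˣ} (h1 : (w : F) ∈ O)
    (h2 : (w : F)⁻¹ ∉ O) : Smq w := by
  refine smq_of_sq (hO.2.2 _ h1 h2) ?_
  intro h
  apply h2
  have : (w : F) = -1 := by linear_combination h
  rw [this, inv_neg, inv_one]
  exact O.neg_mem _ O.one_mem

/-- nonunits are rigid -/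
lemma rig_of_val {O : ValuationSubring F} (hO : Sqr O) {x v : Fˣ} (hx : x ∉ O.unitGroup)
    (hv : (v : F) = 1 + x) : v ∈ sqG F ∨ x * v ∈ sqG F := by
  by_cases h1 : (x : F) ∈ O
  · have h2 : (x : F)⁻¹ ∉ O := fun h => hx (val_eq_one_of h1 h)
    obtain ⟨t, ht, e⟩ := smq_of_max hO h1 h2
    left
    have : v = t := by ext; rw [hv, e]
    rw [this]; exact ht
  · have h2 : (x : F)⁻¹ ∈ O := (O.mem_or_inv_mem _).resolve_left h1
    obtain ⟨t, ht, e⟩ := smq_of_max (w := x⁻¹) hO (by rwa [Units.val_inv_eq_inv_val])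
      (by rwa [Units.val_inv_eq_inv_val, inv_inv])
    right
    have : x * v = x * x * t := by
      ext
      rw [Units.val_mul, Units.val_mul, Units.val_mul, hv, e, Units.val_inv_eq_inv_val]
      have := x.ne_zero
      field_simp
      ring
    rw [this]
    exact (mul_sqm ht).2 (sq_mem' x)

/-- valuation rings give partitions -/
theorem part_of_val {O : ValuationSubring F} (hO : Sqr O) (hne : O.unitGroup ⊔ sqG F ≠ ⊤)
    (hidx : (-1 : Fˣ) ∈ sqG F → (sqG F).index ≠ 2) :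
    ∃ P : Set (Subgroup Fˣ), Ptn P ∧ ∀ K ∈ P, K ≠ ⊤ := by
  set U := O.unitGroup ⊔ sqG F with hU
  have hSU : sqG F ≤ U := le_sup_right
  have huU : O.unitGroup ≤ U := le_sup_left
  have hneg : (-1 : Fˣ) ∈ U := by
    apply huU
    apply val_eq_one_of
    · rw [Units.val_neg, Units.val_one]
      exact O.neg_mem _ O.one_mem
    · rw [Units.val_neg, Units.val_one, inv_neg, inv_one]
      exact O.neg_mem _ O.one_mem
  have key : ∀ x x' y : Fˣ, y ∉ sqG F → y ∈ twoG x → y ∈ twoG x' → twoG x = twoG x' := by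
    intro x x' y hy h1 h3
    have h1' := (mem_twoG.1 h1).resolve_left hy
    have h3' := (mem_twoG.1 h3).resolve_left hy
    have hxx : x * x' ∈ sqG F := by
      have e : x * x' = x * y * (x' * y) * (y⁻¹ * y⁻¹) := by apply Units.ext; push_cast; field_simp
      rw [e, mul_sqm (sq_mem' _)]
      exact (sqG F).mul_mem h1' h3'
    ext w
    rw [mem_twoG, mem_twoG]
    have e : x' * w = x * w * (x * x') * (x⁻¹ * x⁻¹) := by apply Units.ext; push_cast; field_simp
    rw [e, mul_sqm (sq_mem' _), mul_sqm hxx]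
  have hUx : ∀ x y : Fˣ, x ∉ U → y ∈ U → y ∈ twoG x → y ∈ sqG F := by
    intro x y hx hy hyx
    rcases mem_twoG.1 hyx with h | h
    · exact h
    · exact absurd ((U.mul_mem_cancel_right hy).1 (hSU h)) hx
  refine ⟨{K | K = U ∨ ∃ x : Fˣ, x ∉ U ∧ K = twoG x}, ⟨?_, ?_, ?_, ?_⟩, ?_⟩
  · rintro K (rfl | ⟨x, -, rfl⟩)
    · exact hSU
    · exact fun y hy => Or.inl hy
  · intro x
    by_cases hx : x ∈ U
    · exact ⟨U, Or.inl rfl, hx⟩
    · exact ⟨twoG x, Or.inr ⟨x, hx, rfl⟩, Or.inr (sq_mem' x)⟩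
  · have hle : ∀ K K' : Subgroup Fˣ, sqG F ≤ K → sqG F ≤ K' → (∀ y ∈ K, y ∈ K' → y ∈ sqG F) →
        K ⊓ K' = sqG F := fun K K' h1 h3 h4 =>
      le_antisymm (fun y hy => h4 y hy.1 hy.2) (le_inf h1 h3)
    rintro K (rfl | ⟨x, hx, rfl⟩) K' (rfl | ⟨x', hx', rfl⟩) hKK
    · exact absurd rfl hKK
    · exact hle _ _ hSU (fun y hy => Or.inl hy) (fun y h1 h3 => hUx x' y hx' h1 h3)
    · exact hle _ _ (fun y hy => Or.inl hy) hSU (fun y h1 h3 => hUx x y hx h3 h1)
    · refine hle _ _ (fun y hy => Or.inl hy) (fun y hy => Or.inl hy) (fun y h1 h3 => ?_)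
      by_contra hy
      exact hKK (key x x' y hy h1 h3)
  · intro x v hx hx' hv K hK hxK
    have hSK : sqG F ≤ K := by
      rcases hK with rfl | ⟨x, -, rfl⟩
      · exact hSU
      · exact fun y hy => Or.inl hy
    by_cases hxu : x ∈ O.unitGroup
    · have hKU : K = U := by
        rcases hK with rfl | ⟨x', hx'', rfl⟩
        · rfl
        · exact absurd (hUx x' x hx'' (huU hxu) hxK) hx
      rw [hKU]
      apply huU
      have hx1 : (x : F) ∈ O :=
        (O.valuation_le_one_iff _).1 ((ValuationSubring.mem_unitGroup_iff _ _).1 hxu).le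
      have hv1 : (v : F) ∈ O := by rw [hv]; exact O.add_mem _ _ O.one_mem hx1
      by_contra hvu
      have hv2 : (v : F)⁻¹ ∉ O := fun h => hvu (val_eq_one_of hv1 h)
      have h5 : Smq (-v) := smq_of_max hO (by rw [Units.val_neg]; exact O.neg_mem _ hv1)
        (by
          rw [Units.val_neg, inv_neg]
          intro h
          apply hv2
          have := O.neg_mem _ h
          rwa [neg_neg] at this)
      obtain ⟨t, ht, e⟩ := h5
      apply hx'
      have : -x = t := by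
        ext
        rw [e, Units.val_neg, Units.val_neg, hv]
        ring
      rw [this]; exact ht
    · rcases rig_of_val hO hxu hv with h | h
      · exact hSK h
      · exact (K.mul_mem_cancel_left hxK).1 (hSK h)
  · rintro K (rfl | ⟨x, hx, rfl⟩)
    · exact hne
    · intro htop
      have hxS : x ∉ sqG F := fun h => hx (hSU h)
      by_cases hε : (-1 : Fˣ) ∈ sqG F
      · apply hidx hε
        rw [Subgroup.index_eq_two_iff]
        refine ⟨x, fun y => ?_⟩
        have hy : y ∈ twoG x := by rw [htop]; trivial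
        rcases mem_twoG.1 hy with h1 | h1
        · exact Or.inr ⟨h1, fun h3 => hxS (((sqG F).mul_mem_cancel_left h1).1 h3)⟩
        · rw [mul_comm] at h1
          exact Or.inl ⟨h1, fun h3 => hxS (((sqG F).mul_mem_cancel_left h3).1 h1)⟩
      · have h1 : (-1 : Fˣ) ∈ twoG x := by rw [htop]; trivial
        exact hε (hUx x (-1) hx hneg h1)

end Pool.Agent.E8helper26.ETC
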