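import Mathlib
import Pool.Agent.E8helper26.ETC.PVal

set_option autoImplicit false

/-! Partitions and symbols; fields with transitive symbols. -/

namespace Pool.Agent.E8helper26.ETC

open Pool.Agent.Y920.ETC

variable {F : Type} [Field F]

lemma mem_nG {a c : Fˣ} : c ∈ nG a ↔ ∃ x y : F, (c : F) = x ^ 2 - a * y ^ 2 := Iff.rfl

lemma sqG_le_nG (a : Fˣ) : sqG F ≤ nG a := by
  intro c hc
  obtain ⟨b, rfl⟩ := mem_sqG.1 hc
  exact ⟨b, 0, by rw [Units.val_pow_eq_pow_val]; ring⟩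

lemma neg_mem_nG (a : Fˣ) : -a ∈ nG a := ⟨0, 1, by rw [Units.val_neg]; ring⟩

/-- symmetry -/
lemma nG_symm {a b : Fˣ} (hb : b ∉ sqG F) (h : b ∈ nG a) : a ∈ nG b := by
  obtain ⟨x, y, e⟩ := h
  have hy : y ≠ 0 := by
    rintro rfl
    apply hb
    have hx : x ≠ 0 := by
      rintro rfl
      exact b.ne_zero (by rw [e]; ring)
    exact mem_sqG.2 ⟨Units.mk0 x hx, by
      ext
      rw [Units.val_pow_eq_pow_val, Units.val_mk0, e]; ring⟩
  exact ⟨x / y, 1 / y, by field_simp; linear_combination e⟩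

/-- sums and symbols -/
lemma symb_iff {P : Set (Subgroup Fˣ)} (hle : ∀ K ∈ P, sqG F ≤ K) :
    (∀ x v : Fˣ, x ∉ sqG F → -x ∉ sqG F → (v : F) = 1 + x → ∀ K ∈ P, x ∈ K → v ∈ K) ↔
    (∀ x : Fˣ, x ∉ sqG F → -x ∉ sqG F → ∀ K ∈ P, x ∈ K → nG (-x) ≤ K) := by
  constructor
  · rintro h x hx hx' K hK hxK c ⟨X, Y, e⟩
    rw [Units.val_neg] at e
    by_cases hX : X = 0
    · have hY : Y ≠ 0 := by
        rintro rfl
        exact c.ne_zero (by rw [e, hX]; ring)
      have e1 : c = x * (Units.mk0 Y hY * Units.mk0 Y hY) := by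
        ext
        rw [e, hX, Units.val_mul, Units.val_mul, Units.val_mk0]
        ring
      rw [e1]
      exact K.mul_mem hxK (hle K hK (sq_mem' _))
    by_cases hY : Y = 0
    · have e1 : c = Units.mk0 X hX * Units.mk0 X hX := by
        ext
        rw [e, hY, Units.val_mul, Units.val_mk0]
        ring
      rw [e1]
      exact hle K hK (sq_mem' _)
    obtain ⟨q, hq⟩ : ∃ q : Fˣ, (q : F) = Y / X := ⟨Units.mk0 _ (div_ne_zero hY hX), rfl⟩
    obtain ⟨ξ, hξ⟩ : ∃ q : Fˣ, (q : F) = X := ⟨Units.mk0 _ hX, rfl⟩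
    have h1 : c * (ξ⁻¹ * ξ⁻¹) ∈ K := by
      refine h (x * (q * q)) _ (fun h3 => hx ((mul_sqm (sq_mem' q)).1 h3)) (fun h3 => hx' ?_) ?_ K hK
        (K.mul_mem hxK (hle K hK (sq_mem' _)))
      · rw [← neg_mul] at h3
        exact (mul_sqm (sq_mem' q)).1 h3
      · rw [Units.val_mul, Units.val_mul, Units.val_inv_eq_inv_val, Units.val_mul, Units.val_mul,
          hq, hξ, e]
        field_simp
        ring
    exact (K.mul_mem_cancel_right (hle K hK (sq_mem' _))).1 h1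
  · intro h x v hx hx' hv K hK hxK
    exact h x hx hx' K hK hxK ⟨1, 1, by rw [hv, Units.val_neg]; ring⟩

/-- transitivity of symbols -/
def Trs (F : Type) [Field F] : Prop :=
  ∀ a b c : Fˣ, a ∉ sqG F → b ∉ sqG F → b ∈ nG a → c ∈ nG b → c ∈ nG a

section

variable (hε : (-1 : Fˣ) ∈ sqG F)
include hε

lemma self_mem_nG (a : Fˣ) : a ∈ nG a := by
  have h := (nG a).mul_mem (sqG_le_nG a hε) (neg_mem_nG a)
  rwa [neg_one_mul, neg_neg] at h

/-- the norm group of a ramified element -/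
lemma nG_ram {O : ValuationSubring F} (hO : Sqr O) {a : Fˣ} (ha : a ∉ O.unitGroup ⊔ sqG F) :
    nG a = Subgroup.zpowers a ⊔ sqG F := by
  refine le_antisymm ?_ (sup_le ?_ (sqG_le_nG a))
  · have ha1 : -a ∉ O.unitGroup ⊔ sqG F := by
      intro h
      apply ha
      have h1 : (-1 : Fˣ) ∈ O.unitGroup ⊔ sqG F := Subgroup.mem_sup_right hε
      have h3 := Subgroup.mul_mem _ h1 h
      rwa [neg_one_mul, neg_neg] at h3
    rintro c ⟨X, Y, e⟩
    by_cases hX : X = 0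
    · have hY : Y ≠ 0 := by
        rintro rfl
        exact c.ne_zero (by rw [e, hX]; ring)
      have e1 : c = a * (-1 * (Units.mk0 Y hY * Units.mk0 Y hY)) := by
        ext
        rw [e, hX]
        simp only [Units.val_mul, Units.val_mk0, Units.val_neg, Units.val_one]
        ring
      rw [e1]
      exact Subgroup.mul_mem _ (Subgroup.mem_sup_left (Subgroup.mem_zpowers a))
        (Subgroup.mem_sup_right ((sqG F).mul_mem hε (sq_mem' _)))
    by_cases hY : Y = 0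
    · have e1 : c = Units.mk0 X hX * Units.mk0 X hX := by
        ext
        rw [e, hY, Units.val_mul, Units.val_mk0]
        ring
      rw [e1]
      exact Subgroup.mem_sup_right (sq_mem' _)
    obtain ⟨q, hq⟩ : ∃ q : Fˣ, (q : F) = Y / X := ⟨Units.mk0 _ (div_ne_zero hY hX), rfl⟩
    obtain ⟨ξ, hξ⟩ : ∃ q : Fˣ, (q : F) = X := ⟨Units.mk0 _ hX, rfl⟩
    have h1 : -a * (q * q) ∉ O.unitGroup := by
      intro h
      apply ha1
      have h3 : -a * (q * q) ∈ O.unitGroup ⊔ sqG F := Subgroup.mem_sup_left h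
      exact (Subgroup.mul_mem_cancel_right _ (Subgroup.mem_sup_right (sq_mem' q))).1 h3
    have e1 : ((c * (ξ⁻¹ * ξ⁻¹) : Fˣ) : F) = 1 + (-a * (q * q) : Fˣ) := by
      simp only [Units.val_mul, Units.val_inv_eq_inv_val, Units.val_neg]
      rw [hq, hξ, e]
      field_simp
      ring
    rcases rig_of_val hO h1 e1 with h | h
    · exact Subgroup.mem_sup_right ((mul_sqm (sq_mem' _)).1 h)
    · have e2 : c = a * (-1 * (-a * (q * q) * (c * (ξ⁻¹ * ξ⁻¹))) * (a⁻¹ * a⁻¹) *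
          (q⁻¹ * ξ) ^ 2) := by apply Units.ext; push_cast; field_simp
      rw [e2]
      exact Subgroup.mul_mem _ (Subgroup.mem_sup_left (Subgroup.mem_zpowers a))
        (Subgroup.mem_sup_right ((mul_sqm (sq_mem _)).2 ((mul_sqm (sq_mem' _)).2
          ((sqG F).mul_mem hε h))))
  · rw [Subgroup.zpowers_le]
    exact self_mem_nG hε a

/-- the partition into norm groups -/
theorem part_of_trs (htr : Trs F) (hne : ∃ a : Fˣ, a ∉ sqG F ∧ nG a ≠ ⊤) :
    Ptn {K : Subgroup Fˣ | ∃ a : Fˣ, a ∉ sqG F ∧ K = nG a} ∧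
      ∀ K ∈ {K : Subgroup Fˣ | ∃ a : Fˣ, a ∉ sqG F ∧ K = nG a}, K ≠ ⊤ := by
  have hle : ∀ a b c : Fˣ, a ∉ sqG F → b ∉ sqG F → c ∉ sqG F → c ∈ nG a → c ∈ nG b →
      nG b ≤ nG a := by
    intro a b c ha hb hc h1 h3 d hd
    exact htr a c d ha hc h1 (htr c b d hc hb (nG_symm hc h3) hd)
  refine ⟨⟨?_, ?_, ?_, ?_⟩, ?_⟩
  · rintro K ⟨a, -, rfl⟩
    exact sqG_le_nG a
  · intro x
    by_cases hx : x ∈ sqG F
    · obtain ⟨a, ha, -⟩ := hne
      exact ⟨nG a, ⟨a, ha, rfl⟩, sqG_le_nG a hx⟩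
    · exact ⟨nG x, ⟨x, hx, rfl⟩, self_mem_nG hε x⟩
  · rintro K ⟨a, ha, rfl⟩ K' ⟨b, hb, rfl⟩ hKK
    refine le_antisymm (fun c hc => ?_) (le_inf (sqG_le_nG a) (sqG_le_nG b))
    by_contra hcS
    exact hKK (le_antisymm (hle b a c hb ha hcS hc.2 hc.1) (hle a b c ha hb hcS hc.1 hc.2))
  · rintro x v hx - hv K ⟨a, ha, rfl⟩ hxa
    refine htr a x v ha hx hxa ?_
    obtain ⟨ι, hι⟩ := mem_sqG.1 hε
    have hιF : (ι : F) ^ 2 = -1 := by
      have := congrArg (fun u : Fˣ => (u : F)) hι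
      simpa using this.symm
    exact ⟨1, ι, by rw [hv, hιF]; ring⟩
  · rintro K ⟨a, ha, rfl⟩ htop
    obtain ⟨b, hb, hbt⟩ := hne
    apply hbt
    rw [eq_top_iff, ← htop]
    exact hle b a b hb ha hb (self_mem_nG hε b) (by rw [htop]; trivial)

/-- the valuation ring of a field with transitive symbols -/
theorem det_of_trs (h2 : (2 : F) ≠ 0) (htr : Trs F) (hne : ∃ a : Fˣ, a ∉ sqG F ∧ nG a ≠ ⊤) :
    ∃ O : ValuationSubring F, Sqr O ∧ O.unitGroup ⊔ sqG F ≠ ⊤ ∧
      (∀ u : Fˣ, u ∉ sqG F → u ∈ O.unitGroup ⊔ sqG F → nG u = O.unitGroup ⊔ sqG F) ∧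
      (∀ a : Fˣ, a ∉ O.unitGroup ⊔ sqG F → nG a = Subgroup.zpowers a ⊔ sqG F) := by
  obtain ⟨hP, hPne⟩ := part_of_trs hε htr hne
  obtain ⟨O, H, hO, hOH, hSH, hHt, hH⟩ := val_of_part hP h2 hPne (fun h => absurd hε h)
  have hUH : O.unitGroup ⊔ sqG F ≤ H := sup_le hOH hSH
  refine ⟨O, hO, fun h => hHt (eq_top_iff.2 (h ▸ hUH)), ?_, fun a ha => nG_ram hε hO ha⟩
  intro u hu hu'
  refine le_antisymm ?_ ?_
  · intro c hc
    by_contra hcU
    have hcS : c ∉ sqG F := fun h => hcU (Subgroup.mem_sup_right h)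
    have h1 := nG_symm hcS hc
    rw [nG_ram hε hO hcU, Subgroup.mem_sup] at h1
    obtain ⟨g, hg, s, hs, e⟩ := h1
    obtain ⟨n, rfl⟩ := Subgroup.mem_zpowers_iff.1 hg
    rcases Int.even_or_odd' n with ⟨m, hm | hm⟩
    · apply hu
      rw [← e, mul_sqm hs, hm, zpow_mul, zpow_ofNat, ← zpow_natCast, zpow_comm, zpow_natCast]
      exact sq_mem _
    · apply hcU
      have h3 : c = u * (s⁻¹ * (c ^ m)⁻¹ ^ 2) := by
        rw [← e, hm, zpow_add, zpow_one, zpow_mul, zpow_ofNat, ← zpow_natCast, zpow_comm,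
          zpow_natCast]
        generalize c ^ m = d
        apply Units.ext
        push_cast
        field_simp
      rw [h3]
      exact Subgroup.mul_mem _ hu' (Subgroup.mem_sup_right
        ((sqG F).mul_mem ((sqG F).inv_mem hs) (sq_mem _)))
  · refine hUH.trans ?_
    rcases hH with ⟨a, ha, rfl⟩ | h
    · have huH := hUH hu'
      have h3 := hP.inf (nG a) ⟨a, ha, rfl⟩ (nG u) ⟨u, hu, rfl⟩
      by_contra hcon
      exact hu ((h3 (fun e => hcon e.le)).le ⟨huH, self_mem_nG hε u⟩)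
    · intro y hy
      rcases h hε u (hUH hu') hu y hy with h1 | h1
      · exact sqG_le_nG u h1
      · have e : y = u * y * u⁻¹ := by apply Units.ext; push_cast; field_simp
        rw [e]
        exact (nG u).mul_mem (sqG_le_nG u h1) ((nG u).inv_mem (self_mem_nG hε u))

end

/-- the converse -/
theorem trs_of_det {U : Subgroup Fˣ} (hSU : sqG F ≤ U)
    (h1 : ∀ u : Fˣ, u ∉ sqG F → u ∈ U → nG u = U)
    (h3 : ∀ a : Fˣ, a ∉ U → nG a = Subgroup.zpowers a ⊔ sqG F) : Trs F := by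
  intro a b c ha hb hba hcb
  by_cases haU : a ∈ U
  · rw [h1 a ha haU] at hba ⊢
    rw [h1 b hb hba] at hcb
    exact hcb
  · have h4 := h3 a haU
    rw [h4] at hba ⊢
    by_cases hbU : b ∈ U
    · -- impossible
      exfalso
      obtain ⟨g, hg, s, hs, e⟩ := Subgroup.mem_sup.1 hba
      obtain ⟨n, rfl⟩ := Subgroup.mem_zpowers_iff.1 hg
      rcases Int.even_or_odd' n with ⟨m, hm | hm⟩
      · apply hb
        rw [← e, mul_sqm hs, hm, zpow_mul, zpow_ofNat, ← zpow_natCast, zpow_comm, zpow_natCast]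
        exact sq_mem _
      · apply haU
        have h5 : a = b * (s⁻¹ * (a ^ m)⁻¹ ^ 2) := by
          rw [← e, hm, zpow_add, zpow_one, zpow_mul, zpow_ofNat, ← zpow_natCast, zpow_comm,
            zpow_natCast]
          generalize a ^ m = d
          apply Units.ext
          push_cast
          field_simp
        rw [h5]
        exact U.mul_mem hbU (hSU ((sqG F).mul_mem ((sqG F).inv_mem hs) (sq_mem _)))
    · rw [h3 b hbU] at hcb
      refine (sup_le ?_ le_sup_right : Subgroup.zpowers b ⊔ sqG F ≤ _) hcb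
      rw [Subgroup.zpowers_le]
      exact hba

end Pool.Agent.E8helper26.ETC
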